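import Pool.Agent.MP_8ec908_lc.H47.Real

namespace Pool.Agent.MP_8ec908_lc.H47

open Pool.Agent.MP_8ec908_lc.Defs Function Sum

section
variable {U : Type}

/-- Successor on `ℕ ⊕ U`. -/
def aS : ℕ ⊕ U → ℕ ⊕ U
  | inl n => inl (n + 1)
  | inr u => inr u

/-- Addition on `ℕ ⊕ U`. -/
def aAdd : ℕ ⊕ U → ℕ ⊕ U → ℕ ⊕ U
  | inl a, inl b => inl (a + b)
  | inr u, inl _ => inr u
  | _, inr u => inr u

/-- Multiplication on `ℕ ⊕ U`. -/
def aMul : ℕ ⊕ U → ℕ ⊕ U → ℕ ⊕ U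
  | inl a, inl b => inl (a * b)
  | inr _, inl 0 => inl 0
  | inr u, inl (_ + 1) => inr u
  | inl _, inr u => inr u
  | inr u, inr _ => inr u

@[simp] theorem aS_inl (n : ℕ) : aS (inl n : ℕ ⊕ U) = inl (n + 1) := rfl
@[simp] theorem aS_inr (u : U) : aS (inr u : ℕ ⊕ U) = inr u := rfl
@[simp] theorem aAdd_inl (a b : ℕ) : aAdd (inl a : ℕ ⊕ U) (inl b) = inl (a + b) := rfl
@[simp] theorem aAdd_inr_inl (u : U) (b : ℕ) : aAdd (inr u : ℕ ⊕ U) (inl b) = inr u := rfl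
@[simp] theorem aAdd_inr (x : ℕ ⊕ U) (u : U) : aAdd x (inr u) = inr u := by cases x <;> rfl
@[simp] theorem aMul_inl (a b : ℕ) : aMul (inl a : ℕ ⊕ U) (inl b) = inl (a * b) := rfl
@[simp] theorem aMul_zero (x : ℕ ⊕ U) : aMul x (inl 0) = inl 0 := by cases x <;> rfl
@[simp] theorem aMul_inr_succ (u : U) (b : ℕ) : aMul (inr u : ℕ ⊕ U) (inl (b + 1)) = inr u := rfl
@[simp] theorem aMul_inl_inr (a : ℕ) (u : U) : aMul (inl a : ℕ ⊕ U) (inr u) = inr u := rfl
@[simp] theorem aMul_inr_inr (u u' : U) : aMul (inr u : ℕ ⊕ U) (inr u') = inr u := rfl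

/-- Function symbols: the four arithmetic ones, all others have the number values given by `X`. -/
def arFn (X : (k n : ℕ) → (Fin n → ℕ ⊕ U) → ℕ) : (k n : ℕ) → (Fin n → ℕ ⊕ U) → ℕ ⊕ U
  | 0, 0, _ => inl 0
  | 0, 1, ds => aS (ds 0)
  | 0, 2, ds => aAdd (ds 0) (ds 1)
  | 1, 2, ds => aMul (ds 0) (ds 1)
  | k, n, ds => inl (X k n ds)

theorem arFn_cases (k n : ℕ) : (k = 0 ∧ n = 0) ∨ (k = 0 ∧ n = 1) ∨ (k = 0 ∧ n = 2) ∨
    (k = 1 ∧ n = 2) ∨ ∀ (X : (k n : ℕ) → (Fin n → ℕ ⊕ U) → ℕ) ds,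
      arFn X k n ds = inl (X k n ds) := by
  match k, n with
  | 0, 0 => simp
  | 0, 1 => simp
  | 0, 2 => simp
  | 1, 2 => simp
  | 0, n + 3 => right; right; right; right; intros; rfl
  | 1, 0 => right; right; right; right; intros; rfl
  | 1, 1 => right; right; right; right; intros; rfl
  | 1, n + 3 => right; right; right; right; intros; rfl
  | k + 2, n => right; right; right; right; intros; rfl

/-- The structure on `ℕ ⊕ U`. -/
def arStr (U : Type) (X : (k n : ℕ) → (Fin n → ℕ ⊕ U) → ℕ)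
    (R : (k n : ℕ) → (Fin n → ℕ ⊕ U) → Prop) : Str where
  D := ℕ ⊕ U
  d0 := inl 0
  fn := arFn X
  rel := R

variable {X : (k n : ℕ) → (Fin n → ℕ ⊕ U) → ℕ} {R : (k n : ℕ) → (Fin n → ℕ ⊕ U) → Prop}

@[simp] theorem ar_zero (v : ℕ → ℕ ⊕ U) : (arStr U X R).ev v zero = inl 0 := rfl
@[simp] theorem ar_succ (v : ℕ → ℕ ⊕ U) (t : Tm) :
    (arStr U X R).ev v (succ t) = aS ((arStr U X R).ev v t) := rfl
@[simp] theorem ar_add (v : ℕ → ℕ ⊕ U) (s t : Tm) :
    (arStr U X R).ev v (add s t) = aAdd ((arStr U X R).ev v s) ((arStr U X R).ev v t) := rfl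
@[simp] theorem ar_mul (v : ℕ → ℕ ⊕ U) (s t : Tm) :
    (arStr U X R).ev v (mul s t) = aMul ((arStr U X R).ev v s) ((arStr U X R).ev v t) := rfl
@[simp] theorem ar_num (v : ℕ → ℕ ⊕ U) (n : ℕ) : (arStr U X R).ev v (num n) = inl n := by
  induction n with
  | zero => rfl
  | succ n ih => rw [num, ar_succ, ih]; rfl

/-- Arithmetic terms on numbers have their standard value. -/
theorem ar_val {t : Tm} (ht : ArT t) (v : ℕ → ℕ ⊕ U) (w : ℕ → ℕ)
    (h : ∀ x, t.Occ x → v x = inl (w x)) : (arStr U X R).ev v t = inl (t.val w) := by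
  induction ht with
  | var i => exact h i rfl
  | zero => rfl
  | succ t _ ih => rw [ar_succ, ih fun x hx => h x ⟨0, hx⟩]; rfl
  | add s t _ _ ih1 ih2 =>
    rw [ar_add, ih1 fun x hx => h x ⟨0, hx⟩, ih2 fun x hx => h x ⟨1, hx⟩]; rfl
  | mul s t _ _ ih1 ih2 =>
    rw [ar_mul, ih1 fun x hx => h x ⟨0, hx⟩, ih2 fun x hx => h x ⟨1, hx⟩]; rfl

/-- `ℕ ⊕ U` is a model of Robinson arithmetic. -/
theorem ar_Q : ∀ φ ∈ Q, ∀ v, (arStr U X R).Sat φ v := by
  intro φ hφ v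
  simp only [Q, List.mem_cons, List.not_mem_nil, or_false] at hφ
  rcases hφ with rfl | rfl | rfl | rfl | rfl | rfl | rfl
  · intro (d : ℕ ⊕ U) (h : aS d = inl 0)
    cases d <;> cases h
  · intro (d : ℕ ⊕ U) (d' : ℕ ⊕ U) (h : aS d = aS d')
    show d = d'
    cases d <;> cases d' <;> simp_all
  · intro (d : ℕ ⊕ U) (h : d = inl 0 → False)
    rw [Str.sat_ex]
    show ∃ d' : ℕ ⊕ U, d = aS d'
    rcases d with (_ | n) | u
    · exact (h rfl).elim
    · exact ⟨inl n, rfl⟩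
    · exact ⟨inr u, rfl⟩
  · intro (d : ℕ ⊕ U)
    show aAdd d (inl 0) = d
    cases d <;> rfl
  · intro (d : ℕ ⊕ U) (d' : ℕ ⊕ U)
    show aAdd d (aS d') = aS (aAdd d d')
    cases d <;> cases d' <;> rfl
  · intro (d : ℕ ⊕ U)
    show aMul d (inl 0) = inl 0
    cases d <;> rfl
  · intro (d : ℕ ⊕ U) (d' : ℕ ⊕ U)
    show aMul d (aS d') = aAdd (aMul d d') d
    rcases d with a | u <;> rcases d' with b | u'
    · simp [Nat.mul_succ]
    · rfl
    · simp
    · simp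

/-- Whatever `Q` proves is true in `ℕ ⊕ U`. -/
theorem ar_of_provable {p : List Fm} (hp : IsProof Q p) {φ : Fm} (h : φ ∈ p) (v : ℕ → ℕ ⊕ U) :
    (arStr U X R).Sat φ v := Str.sound hp ar_Q φ h v

/-- Truth of a finite consistency statement in `ℕ ⊕ U`, in terms of the valuation. -/
theorem ar_con {C : Fm} (hC : ∀ x, C.Free x → x = 0 ∨ x = 1) (c n : ℕ) (v w : ℕ → ℕ ⊕ U)
    (h0 : w 0 = inl c) (h1 : w 1 = inl n) :
    (arStr U X R).Sat (con C c n) v ↔ (arStr U X R).Sat C w := by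
  rw [con, Str.sat_subst _ _ _ _ (freeFor_of_closed _ _ _ (num_closed n)),
    Str.sat_subst _ _ _ _ (freeFor_of_closed _ _ _ (num_closed c)), ar_num, ar_num]
  refine Str.sat_congr C fun x hx => ?_
  rcases hC x hx with rfl | rfl
  · rw [update_self, h0]
  · rw [update_of_ne (by decide), update_self, h1]

end

/-- The edge under an element. -/
def suppD {E : Type} : ℕ ⊕ (E × ZMod 2) → Set E
  | inl _ => ∅
  | inr u => {u.1}

open Classical in
/-- The gauge action on elements. -/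
noncomputable def flipD {E : Type} (e : E) : ℕ ⊕ (E × ZMod 2) → ℕ ⊕ (E × ZMod 2)
  | inl n => inl n
  | inr u => inr (u.1, if u.1 = e then u.2 + 1 else u.2)

@[simp] theorem suppD_inl {E : Type} (n : ℕ) : suppD (inl n : ℕ ⊕ (E × ZMod 2)) = ∅ := rfl
@[simp] theorem suppD_inr {E : Type} (u : E × ZMod 2) : suppD (inr u) = {u.1} := rfl
@[simp] theorem flipD_inl {E : Type} (e : E) (n : ℕ) : flipD e (inl n) = inl n := rfl
open Classical in
theorem flipD_inr {E : Type} (e : E) (u : E × ZMod 2) :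
    flipD e (inr u) = inr (u.1, if u.1 = e then u.2 + 1 else u.2) := rfl

/-- An interpretation of the non-arithmetic symbols over a geometry. -/
structure Interp (G : Geo) where
  X : (k n : ℕ) → (Fin n → ℕ ⊕ (G.E × ZMod 2)) → G.Ω → ℕ
  R : (k n : ℕ) → (Fin n → ℕ ⊕ (G.E × ZMod 2)) → G.Ω → Prop
  X_loc : ∀ k n ds a a', G.Eqv (⋃ i, suppD (ds i)) a a' → X k n ds a = X k n ds a'
  R_loc : ∀ k n ds a a', G.Eqv (⋃ i, suppD (ds i)) a a' → R k n ds a → R k n ds a'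
  X_flip : ∀ k n ds a e, X k n (fun i => flipD e (ds i)) (G.flip e a) = X k n ds a
  R_flip : ∀ k n ds a e, R k n ds a → R k n (fun i => flipD e (ds i)) (G.flip e a)

namespace Interp

variable {G : Geo} (I : Interp G)

/-- The pseudo-model on `ℕ ⊕ (E × ZMod 2)`. -/
noncomputable def toPM : PM where
  toGeo := G
  D := ℕ ⊕ (G.E × ZMod 2)
  supp := suppD
  supp_sub d := by
    cases d
    · exact Set.subsingleton_empty
    · exact Set.subsingleton_singleton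
  d0 := inl 0
  supp_d0 := rfl
  flipD := flipD
  flipD_flipD e d := by
    rcases d with n | ⟨e', b⟩
    · rfl
    · simp only [flipD_inr]
      split_ifs
      · rw [add_assoc, show (1 : ZMod 2) + 1 = 0 from rfl, add_zero]
      · rfl
  supp_flipD e d := by cases d <;> rfl
  flipD_of_not e d h := by
    rcases d with n | ⟨e', b⟩
    · rfl
    · rw [flipD_inr, if_neg]
      exact fun h' => h h'.symm
  fn k n ds a := arFn (fun k n ds => I.X k n ds a) k n ds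
  rel := I.R
  supp_fn k n ds a := by
    rcases arFn_cases (U := G.E × ZMod 2) k n with ⟨rfl, rfl⟩ | ⟨rfl, rfl⟩ | ⟨rfl, rfl⟩ |
      ⟨rfl, rfl⟩ | h
    · exact Set.empty_subset _
    · refine subset_trans ?_ (Set.subset_iUnion _ 0)
      show suppD (aS (ds 0)) ⊆ _
      cases ds 0 <;> exact subset_rfl
    · refine subset_trans ?_ (Set.union_subset (Set.subset_iUnion _ 0) (Set.subset_iUnion _ 1))
      show suppD (aAdd (ds 0) (ds 1)) ⊆ _
      cases ds 0 <;> cases ds 1 <;> simp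
    · refine subset_trans ?_ (Set.union_subset (Set.subset_iUnion _ 0) (Set.subset_iUnion _ 1))
      show suppD (aMul (ds 0) (ds 1)) ⊆ _
      rcases ds 0 with a | u <;> rcases ds 1 with (_ | b) | u' <;> simp
    · rw [h]; exact Set.empty_subset _
  fn_loc k n ds a a' hE := by
    rcases arFn_cases (U := G.E × ZMod 2) k n with ⟨rfl, rfl⟩ | ⟨rfl, rfl⟩ | ⟨rfl, rfl⟩ |
      ⟨rfl, rfl⟩ | h
    · rfl
    · rfl
    · rfl
    · rfl
    · rw [h, h, I.X_loc k n ds a a' hE]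
  rel_loc := I.R_loc
  fn_flip k n ds a e := by
    rcases arFn_cases (U := G.E × ZMod 2) k n with ⟨rfl, rfl⟩ | ⟨rfl, rfl⟩ | ⟨rfl, rfl⟩ |
      ⟨rfl, rfl⟩ | h
    · rfl
    · show aS (flipD e (ds 0)) = flipD e (aS (ds 0))
      cases ds 0 <;> rfl
    · show aAdd (flipD e (ds 0)) (flipD e (ds 1)) = flipD e (aAdd (ds 0) (ds 1))
      cases ds 0 <;> cases ds 1 <;> rfl
    · show aMul (flipD e (ds 0)) (flipD e (ds 1)) = flipD e (aMul (ds 0) (ds 1))
      rcases ds 0 with a | u <;> rcases ds 1 with (_ | b) | u' <;> rfl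
    · rw [h, h, I.X_flip]; rfl
  rel_flip := I.R_flip

theorem toPM_str : I.toPM.str =
    arStr (G.E × ZMod 2) (fun k n ds => I.X k n ds G.a0) (fun k n ds => I.R k n ds G.a0) := rfl

@[simp] theorem toPM_m : I.toPM.m = G.m := rfl
@[simp] theorem toPM_rel (k n : ℕ) (ds : Fin n → ℕ ⊕ (G.E × ZMod 2)) (a : G.Ω) :
    I.toPM.rel k n ds a ↔ I.R k n ds a := Iff.rfl
@[simp] theorem ev_zero (v : ℕ → ℕ ⊕ (G.E × ZMod 2)) (a : G.Ω) :
    I.toPM.ev v a zero = inl 0 := rfl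
@[simp] theorem ev_succ (v : ℕ → ℕ ⊕ (G.E × ZMod 2)) (a : G.Ω) (t : Tm) :
    I.toPM.ev v a (succ t) = aS (I.toPM.ev v a t) := rfl
@[simp] theorem ev_add (v : ℕ → ℕ ⊕ (G.E × ZMod 2)) (a : G.Ω) (s t : Tm) :
    I.toPM.ev v a (add s t) = aAdd (I.toPM.ev v a s) (I.toPM.ev v a t) := rfl
@[simp] theorem ev_mul (v : ℕ → ℕ ⊕ (G.E × ZMod 2)) (a : G.Ω) (s t : Tm) :
    I.toPM.ev v a (mul s t) = aMul (I.toPM.ev v a s) (I.toPM.ev v a t) := rfl
@[simp] theorem ev_num (v : ℕ → ℕ ⊕ (G.E × ZMod 2)) (a : G.Ω) (n : ℕ) :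
    I.toPM.ev v a (num n) = inl n := by
  induction n with
  | zero => rfl
  | succ n ih => rw [num, ev_succ, ih]; rfl
/-- the symbol used for xor -/
theorem fn_2_2 (ds : Fin 2 → ℕ ⊕ (G.E × ZMod 2)) (a : G.Ω) :
    I.toPM.fn 2 2 ds a = inl (I.X 2 2 ds a) := rfl
/-- the symbol used for rho -/
theorem fn_0_8 (ds : Fin 8 → ℕ ⊕ (G.E × ZMod 2)) (a : G.Ω) :
    I.toPM.fn 0 8 ds a = inl (I.X 0 8 ds a) := rfl

theorem indT_of_ar {t : Tm} (ht : ArT t) : I.toPM.IndT t := by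
  induction ht with
  | var i => trivial
  | zero => exact ⟨fun _ _ _ => rfl, fun i => i.elim0⟩
  | succ t _ ih => exact ⟨fun _ _ _ => rfl, fun i => by fin_cases i; exact ih⟩
  | add s t _ _ ih1 ih2 =>
    exact ⟨fun _ _ _ => rfl, fun i => by fin_cases i; exacts [ih1, ih2]⟩
  | mul s t _ _ ih1 ih2 =>
    exact ⟨fun _ _ _ => rfl, fun i => by fin_cases i; exacts [ih1, ih2]⟩

theorem ind_of_ar {φ : Fm} (h : ArF φ) : I.toPM.Ind φ := by
  induction h with
  | bot => trivial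
  | eq s t hs ht => exact ⟨I.indT_of_ar hs, I.indT_of_ar ht⟩
  | imp a b _ _ ih1 ih2 => exact ⟨ih1, ih2⟩
  | all x a _ ih => exact ih

end Interp

theorem arF_Q : ∀ φ ∈ Q, ArF φ := by
  intro φ hφ
  simp only [Q, List.mem_cons, List.not_mem_nil, or_false] at hφ
  rcases hφ with rfl | rfl | rfl | rfl | rfl | rfl | rfl <;>
    (try simp only [neg, ex]) <;> repeat' constructor

/-- The axioms of `Q` are valid in the pseudo-model. -/
theorem Interp.valid_Q {G : Geo} (I : Interp G) :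
    ∀ φ ∈ Q, (φ.str.length : ℕ∞) < G.m → I.toPM.Valid φ := fun φ hφ hc =>
  PM.valid_of_str (I.ind_of_ar (arF_Q φ hφ)) hc (ar_Q φ hφ)

end Pool.Agent.MP_8ec908_lc.H47
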