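import Pool.Agent.MP_8ec908_lc.H47.Arith

namespace Pool.Agent.MP_8ec908_lc.H47

open Pool.Agent.MP_8ec908_lc.Defs Function

/-- Lattice points. -/
abbrev Pt : Type := Fin 3 → ℤ
/-- Cochains on the edges of the lattice. -/
abbrev Co : Type := Fin 3 → Pt → ZMod 2
/-- Torus edges. -/
abbrev TE (m : ℕ) : Type := Fin 3 × (Fin 3 → ZMod m)

/-- Unit vectors. -/
def uv (d : Fin 3) : Pt := Pi.single d 1

/-- Projection of a lattice edge to the torus. -/
def proj (m : ℕ) (d : Fin 3) (p : Pt) : TE m := (d, fun i => (p i : ZMod m))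

/-- Coboundary on the lifts of `S`. -/
def Cob {m : ℕ} (S : Set (TE m)) (a : Co) : Prop :=
  ∃ φ : Pt → ZMod 2, ∀ d p, proj m d p ∈ S → a d p = φ p + φ (p + uv d)

/-- Translation by a period. -/
def sh (m : ℕ) (γ : Pt) (a : Co) : Co := fun d p => a d (p + (m : ℤ) • γ)

/-- The twisting cochain. -/
def tw (γ : Pt) : Co := fun d p => if d = 1 then ((γ 2 * p 0 : ℤ) : ZMod 2) else 0

/-- Good states. -/
def GoodC {m : ℕ} (S : Set (TE m)) (a : Co) : Prop := ∀ γ, Cob S (sh m γ a + a + tw γ)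

open Classical in
/-- Indicator of the lifts of a torus edge. -/
noncomputable def indE {m : ℕ} (e : TE m) : Co := fun d p => if proj m d p = e then 1 else 0

theorem z2 (x : ZMod 2) : x + x = 0 := by revert x; decide

theorem z2ne : ∀ x y : ZMod 2, x ≠ y → x + 1 = y := by decide

theorem co2 (a : Co) : a + a = 0 := by funext d p; exact z2 _

section
variable {m : ℕ}

theorem proj_shift (d : Fin 3) (p γ : Pt) : proj m d (p + (m : ℤ) • γ) = proj m d p := by
  simp only [proj, Prod.mk.injEq, true_and]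
  funext i
  simp

theorem Cob.mono {S S' : Set (TE m)} {a : Co} (h : S ⊆ S') (H : Cob S' a) : Cob S a := by
  obtain ⟨φ, hφ⟩ := H
  exact ⟨φ, fun d p hp => hφ d p (h hp)⟩

theorem Cob.add {S : Set (TE m)} {a b : Co} (H : Cob S a) (H' : Cob S b) : Cob S (a + b) := by
  obtain ⟨φ, hφ⟩ := H
  obtain ⟨ψ, hψ⟩ := H'
  refine ⟨φ + ψ, fun d p hp => ?_⟩
  simp only [Pi.add_apply, hφ d p hp, hψ d p hp]
  ring

theorem Cob.zero (S : Set (TE m)) : Cob S 0 := ⟨0, fun _ _ _ => by simp⟩

theorem sh_add (γ : Pt) (a b : Co) : sh m γ (a + b) = sh m γ a + sh m γ b := rfl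

theorem sh_indE (γ : Pt) (e : TE m) : sh m γ (indE e) = indE e := by
  funext d p
  simp only [sh, indE, proj_shift]

/-- The box index of a point. -/
def bx (m : ℕ) (r p : Pt) : Pt := fun i => (p i - r i - 1) / (m : ℤ)

/-- The representative of a point in the basic box. -/
def b0 (m : ℕ) (r p : Pt) : Pt := p - (m : ℤ) • bx m r p

theorem b0_add (r p : Pt) : b0 m r p + (m : ℤ) • bx m r p = p := by simp [b0]

theorem proj_b0 (r : Pt) (d : Fin 3) (p : Pt) : proj m d (b0 m r p) = proj m d p := by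
  rw [← proj_shift d _ (bx m r p), b0_add]

theorem bx_shift (hm : m ≠ 0) (r p γ : Pt) : bx m r (p + (m : ℤ) • γ) = bx m r p + γ := by
  funext i
  simp only [bx, Pi.add_apply, Pi.smul_apply, smul_eq_mul]
  rw [show p i + m * γ i - r i - 1 = (p i - r i - 1) + m * γ i by ring,
    Int.add_mul_ediv_left _ _ (by exact_mod_cast hm)]

theorem b0_shift (hm : m ≠ 0) (r p γ : Pt) : b0 m r (p + (m : ℤ) • γ) = b0 m r p := by
  rw [b0, b0, bx_shift hm, smul_add]
  abel

theorem b0_eq_of_proj (hm : m ≠ 0) (r : Pt) {d d' : Fin 3} {p p' : Pt}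
    (h : proj m d p = proj m d' p') : b0 m r p = b0 m r p' := by
  have h1 : ∀ i, ∃ k : ℤ, p' i - p i = m * k := by
    intro i
    have := congrFun (congrArg Prod.snd h) i
    exact (ZMod.intCast_eq_intCast_iff_dvd_sub _ _ _).1 this
  choose γ hγ using h1
  have : p' = p + (m : ℤ) • γ := by
    funext i
    simp only [Pi.add_apply, Pi.smul_apply, smul_eq_mul, ← hγ]
    ring
  rw [this, b0_shift hm]

theorem ediv_succ (hm : m ≠ 0) (x : ℤ) (h : ¬ (m : ℤ) ∣ x + 1) : (x + 1) / m = x / m := by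
  have hm' : (0 : ℤ) < m := by exact_mod_cast Nat.pos_of_ne_zero hm
  have h1 := Int.emod_add_mul_ediv x m
  have h2 := Int.emod_nonneg x hm'.ne'
  have h3 := Int.emod_lt_of_pos x hm'
  have h4 : x % m + 1 ≠ m := by
    intro h4
    apply h
    exact ⟨x / m + 1, by rw [mul_add, mul_one]; omega⟩
  exact ((Int.ediv_emod_unique (r := x % m + 1) hm').2 ⟨by omega, by omega, by omega⟩).1

/-- No lift of an edge of `T` leaves its box. -/
def NoCross (m : ℕ) (r : Pt) (T : Set (TE m)) : Prop :=
  ∀ d p, proj m d p ∈ T → bx m r (p + uv d) = bx m r p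

theorem NoCross.b0 {r : Pt} {T : Set (TE m)} (h : NoCross m r T) {d : Fin 3} {p : Pt}
    (hp : proj m d p ∈ T) : b0 m r (p + uv d) = b0 m r p + uv d := by
  rw [H47.b0, H47.b0, h d p hp]
  abel

theorem exists_noCross (hm : m ≠ 0) {T : Set (TE m)} (hT : T.encard < m) :
    ∃ r, NoCross m r T := by
  have : NeZero m := ⟨hm⟩
  have h1 : ∀ i : Fin 3, ∃ r : ZMod m, ∀ e ∈ T, e.2 i ≠ r := by
    intro i
    by_contra h
    push Not at h
    have hs : (fun e : TE m => e.2 i) '' T = Set.univ := by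
      rw [Set.eq_univ_iff_forall]
      intro r
      obtain ⟨e, he, h⟩ := h r
      exact ⟨e, he, h⟩
    have := Set.encard_image_le (fun e : TE m => e.2 i) T
    rw [hs, Set.encard_univ, ENat.card_eq_coe_fintype_card, ZMod.card] at this
    exact absurd hT (not_lt.2 this)
  choose r hr using h1
  refine ⟨fun i => ((r i).val : ℤ), fun d p hp => ?_⟩
  funext i
  by_cases hi : i = d
  · subst hi
    simp only [bx, uv, Pi.add_apply, Pi.single_eq_same]
    rw [show p i + 1 - (r i).val - 1 = (p i - (r i).val - 1) + 1 by ring]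
    refine ediv_succ hm _ fun hd => hr i _ hp ?_
    have : ((p i - (r i).val - 1 + 1 : ℤ) : ZMod m) = 0 :=
      (ZMod.intCast_zmod_eq_zero_iff_dvd _ _).2 hd
    rw [sub_add_cancel, Int.cast_sub, Int.cast_natCast, ZMod.natCast_zmod_val] at this
    exact sub_eq_zero.1 this
  · simp [bx, uv, Pi.single_eq_of_ne hi]

theorem ext_C (hm : m ≠ 0) {S T : Set (TE m)} (hST : S ⊆ T) (hT : T.encard < m) {a : Co}
    (hg : GoodC S a) : ∃ a', GoodC T a' ∧ Cob S (a + a') := by
  obtain ⟨r, hr⟩ := exists_noCross hm hT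
  refine ⟨fun d p => a d (b0 m r p) + tw (bx m r p) d (b0 m r p), fun δ => ?_, ?_⟩
  · refine ⟨fun p => ((δ 2 * (m * bx m r p 0) * p 1 : ℤ) : ZMod 2), fun d p hp => ?_⟩
    simp only [Pi.add_apply, sh, b0_shift hm, bx_shift hm, hr d p hp, tw]
    have hp0 : p 0 = b0 m r p 0 + m * bx m r p 0 := (congrFun (b0_add (m := m) r p) 0).symm
    split_ifs with hd
    · subst hd
      have : uv 1 1 = 1 := rfl
      rw [this]
      generalize b0 m r p 0 = y at *
      rw [hp0]
      push_cast
      generalize a 1 (b0 m r p) = A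
      have h2 : (2 : ZMod 2) = 0 := rfl
      linear_combination (A + (bx m r p 2 : ZMod 2) * y + (δ 2 : ZMod 2) * y -
        (δ 2 : ZMod 2) * (m * (bx m r p 0 : ZMod 2)) * (p 1 : ZMod 2)) * h2
    · have : uv d 1 = 0 := Pi.single_eq_of_ne (Ne.symm hd) _
      rw [this]
      simp only [add_zero, z2]
  · choose φ hφ using hg
    refine ⟨fun p => φ (bx m r p) (b0 m r p), fun d p hp => ?_⟩
    have h1 := hφ (bx m r p) d (b0 m r p) (by rwa [proj_b0])
    simp only [Pi.add_apply, sh, b0_add] at h1 ⊢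
    rw [hr d p (hST hp), hr.b0 (hST hp), ← h1, add_assoc]

theorem cob_of_box {T : Set (TE m)} {r : Pt} (hr : NoCross m r T) {b : Co}
    (hb : ∀ γ, Cob T (sh m γ b + b)) (φ : Pt → ZMod 2)
    (hφ : ∀ d p, proj m d p ∈ T → b d (b0 m r p) = φ (b0 m r p) + φ (b0 m r p + uv d)) :
    Cob T b := by
  choose ψ hψ using hb
  refine ⟨fun p => ψ (bx m r p) (b0 m r p) + φ (b0 m r p), fun d p hp => ?_⟩
  have h1 := hψ (bx m r p) d (b0 m r p) (by rwa [proj_b0])
  simp only [Pi.add_apply, sh, b0_add] at h1 ⊢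
  rw [hr d p hp, hr.b0 hp]
  have h2 : (2 : ZMod 2) = 0 := rfl
  linear_combination h1 + hφ d p hp - (b d (b0 m r p)) * h2

theorem fib_C (hm : m ≠ 0) {S : Set (TE m)} {e : TE m} (hT : (insert e S).encard < m) {a a' : Co}
    (h1 : GoodC (insert e S) a) (h2 : GoodC (insert e S) a') (h : Cob S (a + a')) :
    Cob (insert e S) (a + a') ∨ Cob (insert e S) (a + (a' + indE e)) := by
  obtain ⟨r, hr⟩ := exists_noCross hm hT
  obtain ⟨φ, hφ⟩ := h
  have hb : ∀ γ, Cob (insert e S) (sh m γ (a + a') + (a + a')) := by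
    intro γ
    convert (h1 γ).add (h2 γ) using 1
    rw [sh_add]
    linear_combination -co2 (tw γ)
  by_cases hc : ∀ d p, proj m d p = e →
      (a + a') d (b0 m r p) = φ (b0 m r p) + φ (b0 m r p + uv d)
  · left
    refine cob_of_box hr hb φ fun d p hp => ?_
    rcases hp with hp | hp
    · exact hc d p hp
    · exact hφ d _ (by rwa [proj_b0])
  · right
    push Not at hc
    obtain ⟨d0, p0, he, hne⟩ := hc
    have heS : e ∉ S := fun h => hne (hφ d0 _ (by rwa [proj_b0, he]))
    rw [← add_assoc]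
    refine cob_of_box hr (fun γ => ?_) φ fun d p hp => ?_
    · convert hb γ using 1
      rw [sh_add γ (a + a'), sh_indE]
      linear_combination co2 (indE e)
    · rcases hp with hp | hp
      · have h3 : b0 m r p = b0 m r p0 := b0_eq_of_proj hm r (hp.trans he.symm)
        have h4 : d = d0 := congrArg Prod.fst (hp.trans he.symm)
        subst h4
        rw [Pi.add_apply, Pi.add_apply, indE, proj_b0, if_pos hp, h3]
        exact z2ne _ _ hne
      · rw [Pi.add_apply, Pi.add_apply, indE, proj_b0, if_neg (fun h : proj m d p = e => heS (h ▸ hp)), add_zero]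
        exact hφ d _ (by rwa [proj_b0])

end

/-- The torus geometry of period `m`. -/
noncomputable def torus (m : ℕ) (hm : m ≠ 0) : Geo where
  E := TE m
  Ω := Co
  m := m
  Good := GoodC
  Eqv S a a' := Cob S (a + a')
  flip e a := a + indE e
  a0 := 0
  good_a0 _ := ⟨0, fun _ _ h => h.elim⟩
  good_mono h H γ := (H γ).mono h
  eqv_mono h H := H.mono h
  eqv_refl S a := by rw [co2]; exact Cob.zero S
  eqv_symm H := by rwa [add_comm]
  eqv_trans {S a a' a''} H H' := by
    convert H.add H' using 1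
    linear_combination -co2 a'
  flip_flip e a := by rw [add_assoc, co2, add_zero]
  good_flip {S} e {a} H γ := by
    convert H γ using 1
    rw [sh_add, sh_indE]
    linear_combination co2 (indE e)
  eqv_flip {S} e {a a'} H := by
    convert H using 1
    linear_combination co2 (indE e)
  ext e _ hg hc := ext_C hm (Set.subset_insert _ _) hc hg
  fib e _ _ hc h1 h2 h := fib_C hm hc h1 h2 h

end Pool.Agent.MP_8ec908_lc.H47
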