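import Pool.Agent.MP_8ec908_lc.H47.Model

namespace Pool.Agent.MP_8ec908_lc.H47

open Pool.Agent.MP_8ec908_lc.Defs Pool.Agent.MP_8ec908_lc.H78 Function Sum

theorem valid_alls {P : PM} (xs : List ℕ) {φ : Fm} (h : P.Valid φ) : P.Valid (alls xs φ) := by
  induction xs with
  | nil => exact h
  | cons x xs ih => exact PM.valid_all x ih

section
variable (n0 : ℕ)

theorem per_ne : 2 * n0 + 1 ≠ 0 := Nat.succ_ne_zero _

/-- The pseudo-model with threshold `n0`. -/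
noncomputable def PP : PM := (II (2 * n0 + 1) (per_ne n0) n0).toPM

/-- Value of a term, with reduced types. -/
noncomputable def EV (v : ℕ → DD (2 * n0 + 1)) (a : Co) (t : Tm) : DD (2 * n0 + 1) :=
  (PP n0).ev v a t

/-- Satisfaction, with reduced types. -/
def SA (φ : Fm) (v : ℕ → DD (2 * n0 + 1)) (a : Co) : Prop := (PP n0).Sat φ v a

variable {n0} (v : ℕ → DD (2 * n0 + 1)) (a : Co)

theorem EV_vr (i : ℕ) : EV n0 v a (vr i) = v i := rfl
theorem EV_zero : EV n0 v a zero = inl 0 := rfl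
theorem EV_succ (t : Tm) : EV n0 v a (succ t) = aS (EV n0 v a t) := rfl
theorem EV_add (s t : Tm) : EV n0 v a (add s t) = aAdd (EV n0 v a s) (EV n0 v a t) := rfl
theorem EV_num (n : ℕ) : EV n0 v a (num n) = inl n :=
  Interp.ev_num (II (2 * n0 + 1) (per_ne n0) n0) v a n
theorem EV_xor (s t : Tm) :
    EV n0 v a (xor s t) = inl (bit (EV n0 v a s) + bit (EV n0 v a t)).val := rfl
theorem EV_rho (d i j l x1 x2 x3 x4 : Tm) :
    EV n0 v a (rho d i j l x1 x2 x3 x4) = inl (rhoZ (dir (EV n0 v a d))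
      (ptD (EV n0 v a i) (EV n0 v a j) (EV n0 v a l)) (EV n0 v a x1) (EV n0 v a x2)
      (EV n0 v a x3) (EV n0 v a x4) a).val := rfl
theorem SA_eq (s t : Tm) : SA n0 (.eq s t) v a ↔ EV n0 v a s = EV n0 v a t := Iff.rfl
theorem SA_imp (φ ψ : Fm) : SA n0 (.imp φ ψ) v a ↔ (SA n0 φ v a → SA n0 ψ v a) := Iff.rfl
theorem SA_neg (φ : Fm) : SA n0 (neg φ) v a ↔ ¬ SA n0 φ v a := Iff.rfl
theorem SA_NatR (t : Tm) : SA n0 (NatR t) v a ↔ IsN (EV n0 v a t) := Iff.rfl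
theorem SA_Pe (t : Tm) : SA n0 (Pe t) v a ↔ ∀ x, EV n0 v a t = inl x → n0 ≤ x := Iff.rfl
theorem SA_TT (d i j l u : Tm) : SA n0 (TT d i j l u) v a ↔
    IsN (EV n0 v a i) ∧ IsN (EV n0 v a j) ∧ IsN (EV n0 v a l) ∧
      proj (2 * n0 + 1) (dir (EV n0 v a d)) (ptD (EV n0 v a i) (EV n0 v a j) (EV n0 v a l)) ∈
        suppD (EV n0 v a u) := Iff.rfl

theorem valid_of_SA {φ : Fm} (h : ∀ v a, SA n0 φ v a) : (PP n0).Valid φ := fun v a _ => h v a

theorem valid_of_good {φ : Fm}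
    (h : ∀ v a (S : Set (TE (2 * n0 + 1))), (∀ x, φ.Free x → suppD (v x) ⊆ S) → GoodC S a →
      SA n0 φ v a) : (PP n0).Valid φ := fun v a hg =>
  h v a ((PP n0).Sf φ v) (fun x hx _ he => ⟨x, hx, he⟩) hg

theorem bit_zero : bit (inl 0 : DD (2 * n0 + 1)) = 0 := rfl
theorem bit_one : bit (inl 1 : DD (2 * n0 + 1)) = 1 := rfl

theorem SA_perHyp (φ : Fm) (h : v 1 = inl (2 * n0 + 1) → SA n0 φ v a) : SA n0 (perHyp φ) v a := by
  simp only [perHyp, imps, List.foldr, SA_imp, SA_eq, SA_neg, SA_Pe, EV_vr, EV_succ, EV_add]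
  intro h1 h2 h3
  apply h
  rw [h1]
  rcases hv : v 0 with x | u
  · rw [hv] at h2 h3
    have h4 : n0 ≤ x + 1 := h3 _ rfl
    have h5 : ¬ n0 ≤ x := fun h => h2 fun y hy => by cases hy; exact h
    have h6 : n0 = x + 1 := by omega
    simp only [aS_inl, aAdd_inl]
    congr 1
    omega
  · rw [hv] at h2
    exact (h2 fun y hy => by cases hy).elim

end

theorem pt_uv0 (i j l : ℤ) : pt i j l + uv 0 = pt (i + 1) j l := by
  funext k; fin_cases k <;> simp [pt, uv]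
theorem pt_uv1 (i j l : ℤ) : pt i j l + uv 1 = pt i (j + 1) l := by
  funext k; fin_cases k <;> simp [pt, uv]
theorem pt_uv2 (i j l : ℤ) : pt i j l + uv 2 = pt i j (l + 1) := by
  funext k; fin_cases k <;> simp [pt, uv]
theorem pt_sh0 (m : ℕ) (j l : ℤ) : pt m j l = pt (0 : ℕ) j l + (m : ℤ) • uv 0 := by
  funext k; fin_cases k <;> simp [pt, uv]
theorem pt_sh1 (m : ℕ) (j l : ℤ) : pt j m l = pt j (0 : ℕ) l + (m : ℤ) • uv 1 := by
  funext k; fin_cases k <;> simp [pt, uv]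
theorem pt_sh2 (m : ℕ) (j l : ℤ) : pt j l m = pt j l (0 : ℕ) + (m : ℤ) • uv 2 := by
  funext k; fin_cases k <;> simp [pt, uv]

theorem rhoZ_0 {m : ℕ} (i j l : ℤ) (x1 x2 x3 x4 : DD m) (a : Co)
    (h1 : proj m 1 (pt i j l) ∈ suppD x1) (h2 : proj m 1 (pt i j (l + 1)) ∈ suppD x2)
    (h3 : proj m 2 (pt i j l) ∈ suppD x3) (h4 : proj m 2 (pt i (j + 1) l) ∈ suppD x4) :
    rhoZ 0 (pt i j l) x1 x2 x3 x4 a = a 1 (pt i j l) + a 1 (pt i j (l + 1)) + a 2 (pt i j l) +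
      a 2 (pt i (j + 1) l) + (getB x1 + getB x2 + getB x3 + getB x4) := by
  rw [← pt_uv2] at h2
  rw [← pt_uv1] at h4
  rw [rhoZ, if_pos ⟨h1, h2, h3, h4⟩, ← pt_uv2, ← pt_uv1]
  simp only [beta, del, if_neg (show (0 : Fin 3) ≠ 2 by decide), add_zero]
  rfl

theorem rhoZ_1 {m : ℕ} (i j l : ℤ) (x1 x2 x3 x4 : DD m) (a : Co)
    (h1 : proj m 0 (pt i j l) ∈ suppD x1) (h2 : proj m 0 (pt i j (l + 1)) ∈ suppD x2)
    (h3 : proj m 2 (pt i j l) ∈ suppD x3) (h4 : proj m 2 (pt (i + 1) j l) ∈ suppD x4) :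
    rhoZ 1 (pt i j l) x1 x2 x3 x4 a = a 0 (pt i j l) + a 0 (pt i j (l + 1)) + a 2 (pt i j l) +
      a 2 (pt (i + 1) j l) + (getB x1 + getB x2 + getB x3 + getB x4) := by
  rw [← pt_uv2] at h2
  rw [← pt_uv0] at h4
  rw [rhoZ, if_pos ⟨h1, h2, h3, h4⟩, ← pt_uv2, ← pt_uv0]
  simp only [beta, del, if_neg (show (1 : Fin 3) ≠ 2 by decide), add_zero]
  rfl

theorem rhoZ_2 {m : ℕ} (i j l : ℤ) (x1 x2 x3 x4 : DD m) (a : Co)
    (h1 : proj m 0 (pt i j l) ∈ suppD x1) (h2 : proj m 0 (pt i (j + 1) l) ∈ suppD x2)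
    (h3 : proj m 1 (pt i j l) ∈ suppD x3) (h4 : proj m 1 (pt (i + 1) j l) ∈ suppD x4) :
    rhoZ 2 (pt i j l) x1 x2 x3 x4 a = a 0 (pt i j l) + a 0 (pt i (j + 1) l) + a 1 (pt i j l) +
      a 1 (pt (i + 1) j l) + (l : ZMod 2) + (getB x1 + getB x2 + getB x3 + getB x4) := by
  rw [← pt_uv1] at h2
  rw [← pt_uv0] at h4
  rw [rhoZ, if_pos ⟨h1, h2, h3, h4⟩, ← pt_uv1, ← pt_uv0]
  simp only [beta, del, if_true]
  rfl

section
variable {n0 : ℕ}

theorem valid_cube : (PP n0).Valid axCube := by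
  refine valid_alls _ (valid_of_SA fun v a => ?_)
  have d0 : dir (inl 0 : DD (2 * n0 + 1)) = 0 := rfl
  have d1 : dir (inl 1 : DD (2 * n0 + 1)) = 1 := rfl
  have d2 : dir (inl 2 : DD (2 * n0 + 1)) = 2 := rfl
  simp only [cubeM, imps, List.foldr, SA_imp, SA_eq, SA_TT, EV_vr, EV_succ, EV_num, EV_xor, EV_rho,
    d0, d1, d2, bit_val]
  rintro ⟨⟨i, hi⟩, ⟨j, hj⟩, ⟨l, hl⟩, h7⟩
  simp only [hi, hj, hl, aS_inl, ptD, getN_inl, Nat.cast_add, Nat.cast_one] at h7 ⊢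
  rintro ⟨-, -, -, h8⟩ ⟨-, -, -, h9⟩ ⟨-, -, -, h10⟩ ⟨-, -, -, h11⟩ ⟨-, -, -, h12⟩ ⟨-, -, -, h13⟩
    ⟨-, -, -, h14⟩ ⟨-, -, -, h15⟩ ⟨-, -, -, h16⟩ ⟨-, -, -, h17⟩ ⟨-, -, -, h18⟩ e4 e5 e6
  rw [e4, e5, e6]
  simp only [bit_val, bit_one]
  rw [rhoZ_0 _ _ _ _ _ _ _ a h12 h14 h16 h18, rhoZ_1 _ _ _ _ _ _ _ a h8 h10 h17 h18,
    rhoZ_2 _ _ _ _ _ _ _ a h9 h10 h13 h14, rhoZ_0 _ _ _ _ _ _ _ a h11 h13 h15 h17,
    rhoZ_1 _ _ _ _ _ _ _ a h7 h9 h15 h16, rhoZ_2 _ _ _ _ _ _ _ a h7 h8 h11 h12]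
  congr 2
  push_cast
  have h2 : (2 : ZMod 2) = 0 := rfl
  linear_combination (a 0 (pt i j l) + a 0 (pt i (j + 1) l) + a 0 (pt i j (l + 1)) +
    a 0 (pt i (j + 1) (l + 1)) + a 1 (pt i j l) + a 1 (pt (i + 1) j l) + a 1 (pt i j (l + 1)) +
    a 1 (pt (i + 1) j (l + 1)) + a 2 (pt i j l) + a 2 (pt (i + 1) j l) + a 2 (pt i (j + 1) l) +
    a 2 (pt (i + 1) (j + 1) l) + getB (v 7) + getB (v 8) + getB (v 9) + getB (v 10) +
    getB (v 11) + getB (v 12) + getB (v 13) + getB (v 14) + getB (v 15) + getB (v 16) +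
    getB (v 17) + getB (v 18) + (l : ZMod 2)) * h2

theorem odd_per : Odd (2 * n0 + 1) := ⟨n0, rfl⟩

theorem valid_EX (h : (axEX.str.length : ℕ∞) < (PP n0).m) : (PP n0).Valid axEX := by
  refine PM.valid_of_str ?_ h fun v => ?_
  · refine ⟨⟨fun _ _ _ h => h, fun i => ?_⟩, ⟨fun _ _ _ h => h, fun i => ?_⟩,
      ⟨fun _ _ _ h => h, fun i => ?_⟩, ⟨fun _ _ _ h => h, fun i => ?_⟩,
      ⟨⟨fun _ _ _ h => h, fun i => ?_⟩, trivial⟩, trivial⟩ <;> fin_cases i <;> trivial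
  · intro (d : DD (2 * n0 + 1)) (i : DD (2 * n0 + 1)) (j : DD (2 * n0 + 1)) (l : DD (2 * n0 + 1))
      _ (hi : IsN i) (hj : IsN j) (hl : IsN l)
    intro H
    exact H (inr (proj (2 * n0 + 1) (dir d) (ptD i j l), 0)) ⟨hi, hj, hl, rfl⟩

theorem valid_Ax0 (h0 : 1 ≤ n0) : ∀ b ∈ Ax0, (b.str.length : ℕ∞) < (PP n0).m → (PP n0).Valid b := by
  intro b hb hlen
  simp only [Ax0, List.mem_cons, List.not_mem_nil, or_false] at hb
  rcases hb with rfl | rfl | rfl | rfl | rfl | rfl | rfl | rfl | rfl | rfl | rfl | rfl | rfl |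
    rfl | rfl | rfl
  · exact valid_of_SA fun v a => ⟨0, rfl⟩
  · refine valid_alls _ (valid_of_SA fun v a => ?_)
    simp only [SA_imp, SA_NatR, EV_succ, EV_vr]
    rintro ⟨n, hn⟩
    exact ⟨n + 1, by rw [hn]; rfl⟩
  · exact valid_EX hlen
  · refine valid_alls _ (valid_of_SA fun v a => ?_)
    simp only [SA_eq, EV_xor, EV_vr, bit_val]
    rw [add_left_comm]
  · refine valid_alls _ (valid_of_SA fun v a => ?_)
    simp only [SA_eq, EV_xor, EV_vr, EV_zero, bit_val, bit_zero]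
    rw [← add_assoc, z2]
  · refine valid_alls _ (valid_of_SA fun v a => ?_)
    simp only [SA_eq, EV_xor, EV_vr, EV_zero, bit_val, bit_zero, zero_add]
  · exact valid_of_SA fun v a => rfl
  · refine valid_of_SA fun v a => ?_
    simp only [axX5, SA_neg, SA_eq, EV_xor, EV_num, EV_zero, bit_zero, bit_one]
    intro h
    exact absurd (Sum.inl.inj h) (by decide)
  · exact valid_cube
  · refine valid_of_SA fun v a => ?_
    simp only [axP0, SA_neg, SA_Pe, EV_zero]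
    intro h
    have := h 0 rfl
    omega
  · refine valid_alls _ (valid_of_SA fun v a => SA_perHyp v a _ fun h => ?_)
    simp only [SA_imp, SA_TT, EV_vr, EV_zero, h, ptD, getN_inl]
    rintro ⟨-, h1, h2, h3⟩
    exact ⟨⟨_, rfl⟩, h1, h2, by rwa [pt_sh0, proj_shift]⟩
  · refine valid_alls _ (valid_of_SA fun v a => SA_perHyp v a _ fun h => ?_)
    simp only [SA_imp, SA_TT, EV_vr, EV_zero, h, ptD, getN_inl]
    rintro ⟨h1, -, h2, h3⟩
    exact ⟨h1, ⟨_, rfl⟩, h2, by rwa [pt_sh1, proj_shift]⟩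
  · refine valid_alls _ (valid_of_SA fun v a => SA_perHyp v a _ fun h => ?_)
    simp only [SA_imp, SA_TT, EV_vr, EV_zero, h, ptD, getN_inl]
    rintro ⟨h1, h2, -, h3⟩
    exact ⟨h1, h2, ⟨_, rfl⟩, by rwa [pt_sh2, proj_shift]⟩
  · refine valid_alls _ (valid_of_good fun v a S hS hg => SA_perHyp v a _ fun h => ?_)
    simp only [SA_eq, EV_rho, EV_vr, EV_zero, h, ptD, getN_inl]
    rw [pt_sh0 (2 * n0 + 1), ← rhoZ_shift odd_per hg]
    · exact hS 5 (Or.inr (Or.inr (Or.inr (Or.inl ⟨4, rfl⟩))))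
    · exact hS 6 (Or.inr (Or.inr (Or.inr (Or.inl ⟨5, rfl⟩))))
    · exact hS 7 (Or.inr (Or.inr (Or.inr (Or.inl ⟨6, rfl⟩))))
    · exact hS 8 (Or.inr (Or.inr (Or.inr (Or.inl ⟨7, rfl⟩))))
  · refine valid_alls _ (valid_of_good fun v a S hS hg => SA_perHyp v a _ fun h => ?_)
    simp only [SA_eq, EV_rho, EV_vr, EV_zero, h, ptD, getN_inl]
    rw [pt_sh1 (2 * n0 + 1), ← rhoZ_shift odd_per hg]
    · exact hS 5 (Or.inr (Or.inr (Or.inr (Or.inl ⟨4, rfl⟩))))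
    · exact hS 6 (Or.inr (Or.inr (Or.inr (Or.inl ⟨5, rfl⟩))))
    · exact hS 7 (Or.inr (Or.inr (Or.inr (Or.inl ⟨6, rfl⟩))))
    · exact hS 8 (Or.inr (Or.inr (Or.inr (Or.inl ⟨7, rfl⟩))))
  · refine valid_alls _ (valid_of_good fun v a S hS hg => SA_perHyp v a _ fun h => ?_)
    simp only [SA_eq, EV_rho, EV_vr, EV_zero, h, ptD, getN_inl]
    rw [pt_sh2 (2 * n0 + 1), ← rhoZ_shift odd_per hg]
    · exact hS 5 (Or.inr (Or.inr (Or.inr (Or.inl ⟨4, rfl⟩))))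
    · exact hS 6 (Or.inr (Or.inr (Or.inr (Or.inl ⟨5, rfl⟩))))
    · exact hS 7 (Or.inr (Or.inr (Or.inr (Or.inl ⟨6, rfl⟩))))
    · exact hS 8 (Or.inr (Or.inr (Or.inr (Or.inl ⟨7, rfl⟩))))

end

/-- The structure in the format of the integrator. -/
def toStruc (M : Str) : H18.Struc M.D := ⟨M.fn, M.rel⟩

theorem ev_toStruc (M : Str) (v : ℕ → M.D) (t : Tm) : H18.ev (toStruc M) v t = M.ev v t := by
  induction t with
  | var i => rfl
  | app k n ts ih =>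
    show M.fn k n _ = M.fn k n _
    congr 1
    funext i
    exact ih i

theorem sat_toStruc (M : Str) (φ : Fm) : ∀ v : ℕ → M.D, H18.sat (toStruc M) v φ ↔ M.Sat φ v := by
  induction φ with
  | bot => intro v; rfl
  | eq s t =>
    intro v
    show H18.ev _ v s = H18.ev _ v t ↔ _
    rw [ev_toStruc, ev_toStruc]; rfl
  | rel k n ts =>
    intro v
    show M.rel k n (fun i => H18.ev _ v (ts i)) ↔ _
    simp only [ev_toStruc]
    rfl
  | imp φ ψ ih1 ih2 =>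
    intro v
    show (H18.sat _ v φ → H18.sat _ v ψ) ↔ _
    rw [ih1, ih2]; rfl
  | all x φ ih =>
    intro v
    exact forall_congr' fun d => ih _

theorem ind_of_static {n0 : ℕ} {b : Fm} (h : H18.Static b) : (PP n0).Ind b := by
  induction h with
  | bot => trivial
  | eq s t hs ht => exact ⟨Interp.indT_of_ar _ hs, Interp.indT_of_ar _ ht⟩
  | nat t ht => exact ⟨fun _ _ _ h => h, fun i => by fin_cases i; exact Interp.indT_of_ar _ ht⟩
  | pe t ht => exact ⟨fun _ _ _ h => h, fun i => by fin_cases i; exact Interp.indT_of_ar _ ht⟩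
  | imp a b _ _ ih1 ih2 => exact ⟨ih1, ih2⟩
  | all x a _ ih => exact ih

theorem m45 : H18.M45Statement := by
  intro n0 h0
  have hm : ∀ k : ℕ, k ≤ n0 → (k : ℕ∞) < (PP n0).m := by
    intro k hk
    show (k : ℕ∞) < ((2 * n0 + 1 : ℕ) : ℕ∞)
    exact_mod_cast (by omega)
  refine ⟨(PP n0).str.D, toStruc (PP n0).str, inl, (PP n0).Valid, ?_, ?_, ?_, ?_,
    PM.not_valid_bot, ?_, ?_, ?_⟩
  · exact ⟨Sum.inl_injective, rfl, fun _ => rfl, fun _ _ => rfl, fun _ _ => rfl, fun _ => Iff.rfl⟩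
  · intro b hb v
    rw [sat_toStruc]
    exact ar_Q b hb v
  · intro d; exact Iff.rfl
  · intro A p hp hlen hA
    have key : ∀ q, IsProof A q → len q ≤ n0 →
        IsProof (A.filter fun a => a.str.length ≤ n0) q := by
      intro q hq
      have hl : ∀ (a : Fm) (q : List Fm), len (a :: q) ≤ n0 → len q ≤ n0 := by
        intro a q h
        simp only [len, List.map_cons, List.sum_cons] at h ⊢
        omega
      induction hq with
      | nil => intro _; exact .nil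
      | logic p a _ ha ih => intro h; exact .logic p a (ih (hl _ _ h)) ha
      | ax p a _ ha ih =>
        intro h
        refine .ax p a (ih (hl _ _ h)) (List.mem_filter.2 ⟨ha, ?_⟩)
        simpa using (PM.line_le_len List.mem_cons_self).trans h
      | mp p a b _ ha hab ih => intro h; exact .mp p a b (ih (hl _ _ h)) ha hab
      | gen p x a _ ha ih => intro h; exact .gen p x a (ih (hl _ _ h)) ha
    refine PM.sound (key p hp hlen) (fun φ hφ => hm _ ((PM.line_le_len hφ).trans hlen)) ?_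
    intro φ hφ _
    obtain ⟨h1, h2⟩ := List.mem_filter.1 hφ
    exact hA φ h1 (by simpa using h2)
  · intro b hb hlen
    exact valid_Ax0 h0 b hb (hm _ hlen)
  · intro a b ha hb h1 h2 v w hg H
    have hg' : (PP n0).Good ∅ w := (PP n0).good_mono (Set.empty_subset _) hg
    exact H (PM.sat_of_loc (h1 v) (PM.Sf_closed ha v).subset hg')
      (PM.sat_of_loc (h2 v) (PM.Sf_closed hb v).subset hg')
  · intro b hb hlen ht
    exact PM.valid_of_str (ind_of_static hb) (hm _ hlen) fun v => (sat_toStruc _ b v).1 (ht v)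

end Pool.Agent.MP_8ec908_lc.H47
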