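import Pool.Agent.MP_8ec908_lc.H47.M45
import Pool.Agent.MP_8ec908_lc.H18.Iface2

namespace Pool.Agent.MP_8ec908_lc.H47

open Pool.Agent.MP_8ec908_lc.Defs Pool.Agent.MP_8ec908_lc.H78 Function Sum

theorem m45g : H18.M45gStatement := by
  intro n0 h0
  have hm : ∀ k : ℕ, k ≤ n0 → (k : ℕ∞) < (PP n0).m := by
    intro k hk
    show (k : ℕ∞) < ((2 * n0 + 1 : ℕ) : ℕ∞)
    exact_mod_cast (by omega)
  refine ⟨(PP n0).str.D, toStruc (PP n0).str, inl, (PP n0).Valid, ?_, ?_, ?_, ?_, ?_,
    PM.not_valid_bot, ?_, ?_, ?_⟩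
  · exact ⟨Sum.inl_injective, rfl, fun _ => rfl, fun _ _ => rfl, fun _ _ => rfl, fun _ => Iff.rfl⟩
  · intro (d : DD (2 * n0 + 1)) (hd : aS d ≠ d)
    rcases d with n | u
    · exact ⟨n, rfl⟩
    · exact (hd rfl).elim
  · intro b hb v
    rw [sat_toStruc]
    exact ar_Q b hb v
  · intro d; exact Iff.rfl
  · intro A p hp hlen hA
    have key : ∀ q, IsProof A q → len q ≤ n0 →
        IsProof (A.filter fun a => a.str.length ≤ n0) q := by
      intro q hq
      have hl : ∀ (a : Fm) (q : List Fm), len (a :: q) ≤ n0 → len q ≤ n0 := by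
        intro a q h
        simp only [len, List.map_cons, List.sum_cons] at h ⊢
        omega
      induction hq with
      | nil => intro _; exact .nil
      | logic p a _ ha ih => intro h; exact .logic p a (ih (hl _ _ h)) ha
      | ax p a _ ha ih =>
        intro h
        refine .ax p a (ih (hl _ _ h)) (List.mem_filter.2 ⟨ha, ?_⟩)
        simpa using (PM.line_le_len List.mem_cons_self).trans h
      | mp p a b _ ha hab ih => intro h; exact .mp p a b (ih (hl _ _ h)) ha hab
      | gen p x a _ ha ih => intro h; exact .gen p x a (ih (hl _ _ h)) ha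
    refine PM.sound (key p hp hlen) (fun φ hφ => hm _ ((PM.line_le_len hφ).trans hlen)) ?_
    intro φ hφ _
    obtain ⟨h1, h2⟩ := List.mem_filter.1 hφ
    exact hA φ h1 (by simpa using h2)
  · intro b hb hlen
    exact valid_Ax0 h0 b hb (hm _ hlen)
  · intro a b ha hb h1 h2 v w hg H
    have hg' : (PP n0).Good ∅ w := (PP n0).good_mono (Set.empty_subset _) hg
    exact H (PM.sat_of_loc (h1 v) (PM.Sf_closed ha v).subset hg')
      (PM.sat_of_loc (h2 v) (PM.Sf_closed hb v).subset hg')
  · intro b hb hlen ht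
    exact PM.valid_of_str (ind_of_static hb) (hm _ hlen) fun v => (sat_toStruc _ b v).1 (ht v)

end Pool.Agent.MP_8ec908_lc.H47
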