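import Pool.Agent.MP_8ec908_lc.H47.Geom
import Pool.Agent.MP_8ec908_lc.H18.Iface

namespace Pool.Agent.MP_8ec908_lc.H47

open Pool.Agent.MP_8ec908_lc.Defs Function Sum

/-- The domain. -/
abbrev DD (m : ℕ) : Type := ℕ ⊕ (TE m × ZMod 2)

section
variable {m : ℕ}

/-- The number of an element (`0` for a weird one). -/
def getN : DD m → ℕ
  | inl n => n
  | inr _ => 0

/-- The bit of a weird element. -/
def getB : DD m → ZMod 2
  | inl _ => 0
  | inr u => u.2

/-- The truth bit of an element. -/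
def bit : DD m → ZMod 2
  | inl n => if n = 1 then 1 else 0
  | inr _ => 0

/-- The element is a number. -/
def IsN (x : DD m) : Prop := ∃ n, x = inl n

@[simp] theorem getN_inl (n : ℕ) : getN (inl n : DD m) = n := rfl

theorem bit_val (z : ZMod 2) : bit (inl z.val : DD m) = z := by
  show (if z.val = 1 then (1 : ZMod 2) else 0) = z
  revert z
  decide

theorem getN_flip (e : TE m) (x : DD m) : getN (flipD e x) = getN x := by cases x <;> rfl
theorem bit_flip (e : TE m) (x : DD m) : bit (flipD e x) = bit x := by cases x <;> rfl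
theorem supp_flip (e : TE m) (x : DD m) : suppD (flipD e x) = suppD x := by cases x <;> rfl
theorem isN_flip (e : TE m) {x : DD m} (h : IsN x) : IsN (flipD e x) := by
  obtain ⟨n, rfl⟩ := h
  exact ⟨n, rfl⟩

theorem getB_flip (e : TE m) {x : DD m} {d : Fin 3} {p : Pt} (h : proj m d p ∈ suppD x) :
    getB (flipD e x) = getB x + indE e d p := by
  rcases x with n | u
  · exact h.elim
  · have h' : proj m d p = u.1 := h
    rw [flipD_inr, indE, h']
    simp only [getB]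
    split_ifs <;> simp

/-- The direction named by an element. -/
def dir (x : DD m) : Fin 3 := Fin.ofNat 3 (getN x)

/-- A point from three integers. -/
def pt (i j l : ℤ) : Pt := ![i, j, l]

/-- The point named by three elements. -/
def ptD (x y z : DD m) : Pt := pt (getN x) (getN y) (getN z)

/-- First direction in the face with normal `d`. -/
def f1 : Fin 3 → Fin 3 := ![1, 0, 0]
/-- Second direction in the face with normal `d`. -/
def f2 : Fin 3 → Fin 3 := ![2, 2, 1]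

/-- Coboundary of a cochain on a face. -/
def del (a : Co) (d : Fin 3) (p : Pt) : ZMod 2 :=
  a (f1 d) p + a (f1 d) (p + uv (f2 d)) + a (f2 d) p + a (f2 d) (p + uv (f1 d))

/-- The background face cochain. -/
def beta (d : Fin 3) (p : Pt) : ZMod 2 := if d = 2 then (p 2 : ZMod 2) else 0

/-- The four elements lie over the four edges of the face. -/
def OnFace (d : Fin 3) (p : Pt) (x1 x2 x3 x4 : DD m) : Prop :=
  proj m (f1 d) p ∈ suppD x1 ∧ proj m (f1 d) (p + uv (f2 d)) ∈ suppD x2 ∧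
    proj m (f2 d) p ∈ suppD x3 ∧ proj m (f2 d) (p + uv (f1 d)) ∈ suppD x4

open Classical in
/-- The face bit. -/
noncomputable def rhoZ (d : Fin 3) (p : Pt) (x1 x2 x3 x4 : DD m) (a : Co) : ZMod 2 :=
  if OnFace d p x1 x2 x3 x4 then del a d p + beta d p + (getB x1 + getB x2 + getB x3 + getB x4)
  else 0

theorem del_add (a b : Co) (d : Fin 3) (p : Pt) : del (a + b) d p = del a d p + del b d p := by
  simp only [del, Pi.add_apply]; ring

theorem del_cob {S : Set (TE m)} {a : Co} (h : Cob S a) {d : Fin 3} {p : Pt}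
    {x1 x2 x3 x4 : DD m} (hf : OnFace d p x1 x2 x3 x4) (h1 : suppD x1 ⊆ S) (h2 : suppD x2 ⊆ S)
    (h3 : suppD x3 ⊆ S) (h4 : suppD x4 ⊆ S) : del a d p = 0 := by
  obtain ⟨φ, hφ⟩ := h
  rw [del, hφ _ _ (h1 hf.1), hφ _ _ (h2 hf.2.1), hφ _ _ (h3 hf.2.2.1), hφ _ _ (h4 hf.2.2.2),
    add_right_comm p (uv (f2 d)) (uv (f1 d))]
  have h2 : (2 : ZMod 2) = 0 := rfl
  linear_combination (φ p + φ (p + uv (f1 d)) + φ (p + uv (f2 d)) +
    φ (p + uv (f1 d) + uv (f2 d))) * h2

theorem rhoZ_loc {S : Set (TE m)} {a a' : Co} (h : Cob S (a + a')) (d : Fin 3) (p : Pt)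
    {x1 x2 x3 x4 : DD m} (h1 : suppD x1 ⊆ S) (h2 : suppD x2 ⊆ S)
    (h3 : suppD x3 ⊆ S) (h4 : suppD x4 ⊆ S) :
    rhoZ d p x1 x2 x3 x4 a = rhoZ d p x1 x2 x3 x4 a' := by
  unfold rhoZ
  split_ifs with hf
  · have := del_cob h hf h1 h2 h3 h4
    rw [del_add] at this
    linear_combination this - z2 (del a' d p)
  · rfl

theorem rhoZ_flip (e : TE m) (d : Fin 3) (p : Pt) (x1 x2 x3 x4 : DD m) (a : Co) :
    rhoZ d p (flipD e x1) (flipD e x2) (flipD e x3) (flipD e x4) (a + indE e) =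
      rhoZ d p x1 x2 x3 x4 a := by
  have hO : OnFace d p (flipD e x1) (flipD e x2) (flipD e x3) (flipD e x4) ↔
      OnFace d p x1 x2 x3 x4 := by
    simp only [OnFace, supp_flip]
  unfold rhoZ
  by_cases hf : OnFace d p x1 x2 x3 x4
  · rw [if_pos hf, if_pos (hO.2 hf), getB_flip e hf.1, getB_flip e hf.2.1, getB_flip e hf.2.2.1,
      getB_flip e hf.2.2.2, del_add]
    have h3 := z2 (del (indE e) d p)
    unfold del at h3 ⊢
    linear_combination h3
  · rw [if_neg hf, if_neg (fun h => hf (hO.1 h))]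

theorem del_tw (γ : Pt) (d : Fin 3) (p : Pt) :
    del (tw γ) d p = if d = 2 then (γ 2 : ZMod 2) else 0 := by
  have h2 : (2 : ZMod 2) = 0 := rfl
  fin_cases d
  · simp [del, tw, f1, f2, uv, z2]
  · simp [del, tw, f1, f2]
  · simp [del, tw, f1, f2, uv]
    linear_combination ((γ 2 : ZMod 2) * (p 0 : ZMod 2)) * h2

theorem rhoZ_shift (hm : Odd m) {S : Set (TE m)} {a : Co} (h : GoodC S a) (d : Fin 3) (p γ : Pt)
    {x1 x2 x3 x4 : DD m} (h1 : suppD x1 ⊆ S) (h2 : suppD x2 ⊆ S)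
    (h3 : suppD x3 ⊆ S) (h4 : suppD x4 ⊆ S) :
    rhoZ d p x1 x2 x3 x4 a = rhoZ d (p + (m : ℤ) • γ) x1 x2 x3 x4 a := by
  have hO : OnFace d (p + (m : ℤ) • γ) x1 x2 x3 x4 ↔ OnFace d p x1 x2 x3 x4 := by
    simp only [OnFace, add_right_comm p ((m : ℤ) • γ), proj_shift]
  unfold rhoZ
  by_cases hf : OnFace d p x1 x2 x3 x4
  · rw [if_pos hf, if_pos (hO.2 hf)]
    have h5 := del_cob (h γ) hf h1 h2 h3 h4
    rw [del_add, del_add, del_tw] at h5
    have h6 : del (sh m γ a) d p = del a d (p + (m : ℤ) • γ) := by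
      simp only [del, sh, add_right_comm p ((m : ℤ) • γ)]
    have hm1 : (m : ZMod 2) = 1 := (ZMod.natCast_eq_one_iff_odd).2 hm
    have h7 : beta d (p + (m : ℤ) • γ) = beta d p + if d = 2 then (γ 2 : ZMod 2) else 0 := by
      unfold beta
      split_ifs
      · simp [hm1]
      · simp
    rw [h7, ← h6]
    linear_combination -h5 + z2 (del a d p)
  · rw [if_neg hf, if_neg (fun h => hf (hO.1 h))]

/-- Non-arithmetic function symbols. -/
noncomputable def XX : (k n : ℕ) → (Fin n → DD m) → Co → ℕ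
  | 2, 2, ds, _ => (bit (ds 0) + bit (ds 1)).val
  | 0, 8, ds, a => (rhoZ (dir (ds 0)) (ptD (ds 1) (ds 2) (ds 3)) (ds 4) (ds 5) (ds 6) (ds 7) a).val
  | _, _, _, _ => 0

/-- Relation symbols. -/
def RR (n0 : ℕ) : (k n : ℕ) → (Fin n → DD m) → Prop
  | 0, 1, ds => IsN (ds 0)
  | 1, 1, ds => ∀ x, ds 0 = inl x → n0 ≤ x
  | 0, 5, ds => IsN (ds 1) ∧ IsN (ds 2) ∧ IsN (ds 3) ∧
      proj m (dir (ds 0)) (ptD (ds 1) (ds 2) (ds 3)) ∈ suppD (ds 4)
  | _, _, _ => False

theorem XX_cases (k n : ℕ) : (k = 2 ∧ n = 2) ∨ (k = 0 ∧ n = 8) ∨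
    ∀ (ds : Fin n → DD m) a, XX k n ds a = 0 := by
  by_cases h1 : k = 2 ∧ n = 2
  · exact Or.inl h1
  by_cases h2 : k = 0 ∧ n = 8
  · exact Or.inr (Or.inl h2)
  refine Or.inr (Or.inr fun ds a => ?_)
  unfold XX
  split
  · exact (h1 ⟨rfl, rfl⟩).elim
  · exact (h2 ⟨rfl, rfl⟩).elim
  · rfl

theorem RR_cases (n0 k n : ℕ) : (k = 0 ∧ n = 1) ∨ (k = 1 ∧ n = 1) ∨ (k = 0 ∧ n = 5) ∨
    ∀ (ds : Fin n → DD m), ¬ RR n0 k n ds := by
  by_cases h1 : k = 0 ∧ n = 1
  · exact Or.inl h1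
  by_cases h2 : k = 1 ∧ n = 1
  · exact Or.inr (Or.inl h2)
  by_cases h3 : k = 0 ∧ n = 5
  · exact Or.inr (Or.inr (Or.inl h3))
  refine Or.inr (Or.inr (Or.inr fun ds => ?_))
  unfold RR
  split
  · exact (h1 ⟨rfl, rfl⟩).elim
  · exact (h2 ⟨rfl, rfl⟩).elim
  · exact (h3 ⟨rfl, rfl⟩).elim
  · exact id

theorem XX_loc (k n : ℕ) (ds : Fin n → DD m) (a a' : Co) (h : Cob (⋃ i, suppD (ds i)) (a + a')) :
    XX k n ds a = XX k n ds a' := by
  rcases XX_cases (m := m) k n with ⟨rfl, rfl⟩ | ⟨rfl, rfl⟩ | h0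
  · rfl
  · exact congrArg ZMod.val (rhoZ_loc h _ _ (Set.subset_iUnion (fun i => suppD (ds i)) 4)
      (Set.subset_iUnion (fun i => suppD (ds i)) 5) (Set.subset_iUnion (fun i => suppD (ds i)) 6)
      (Set.subset_iUnion (fun i => suppD (ds i)) 7))
  · exact (h0 _ _).trans (h0 _ _).symm

theorem XX_flip (k n : ℕ) (ds : Fin n → DD m) (a : Co) (e : TE m) :
    XX k n (fun i => flipD e (ds i)) (a + indE e) = XX k n ds a := by
  rcases XX_cases (m := m) k n with ⟨rfl, rfl⟩ | ⟨rfl, rfl⟩ | h0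
  · simp only [XX, bit_flip]
  · simp only [XX, dir, ptD, getN_flip, rhoZ_flip]
  · exact (h0 _ _).trans (h0 _ _).symm

theorem RR_flip (n0 k n : ℕ) (ds : Fin n → DD m) (e : TE m) (h : RR n0 k n ds) :
    RR n0 k n (fun i => flipD e (ds i)) := by
  rcases RR_cases (m := m) n0 k n with ⟨rfl, rfl⟩ | ⟨rfl, rfl⟩ | ⟨rfl, rfl⟩ | h0
  · exact isN_flip e h
  · intro x hx
    apply h x
    revert hx
    show flipD e (ds 0) = inl x → ds 0 = inl x
    rcases ds 0 with n | u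
    · exact id
    · intro hx; cases hx
  · refine ⟨isN_flip e h.1, isN_flip e h.2.1, isN_flip e h.2.2.1, ?_⟩
    have := h.2.2.2
    simp only [dir, ptD, getN_flip, supp_flip] at this ⊢
    exact this
  · exact (h0 _ h).elim

end

/-- The interpretation over the torus. -/
noncomputable def II (m : ℕ) (hm : m ≠ 0) (n0 : ℕ) : Interp (torus m hm) where
  X := XX (m := m)
  R k n ds _ := RR (m := m) n0 k n ds
  X_loc := XX_loc
  R_loc _ _ _ _ _ _ h := h
  X_flip := XX_flip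
  R_flip k n ds _ e h := RR_flip n0 k n ds e h

end Pool.Agent.MP_8ec908_lc.H47
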