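import Pool.Agent.MP_8ec908_lc.Defs

namespace Pool.Agent.MP_8ec908_lc.H47

open Pool.Agent.MP_8ec908_lc.Defs Function

/-- The abstract geometry: states `Ω`, edges `E`, width bound `m`. -/
structure Geo where
  E : Type
  Ω : Type
  m : ℕ∞
  Good : Set E → Ω → Prop
  Eqv : Set E → Ω → Ω → Prop
  flip : E → Ω → Ω
  a0 : Ω
  good_a0 : Good ∅ a0
  good_mono : ∀ {S S' : Set E} {a : Ω}, S ⊆ S' → Good S' a → Good S a
  eqv_mono : ∀ {S S' : Set E} {a a' : Ω}, S ⊆ S' → Eqv S' a a' → Eqv S a a'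
  eqv_refl : ∀ (S : Set E) (a : Ω), Eqv S a a
  eqv_symm : ∀ {S : Set E} {a a' : Ω}, Eqv S a a' → Eqv S a' a
  eqv_trans : ∀ {S : Set E} {a a' a'' : Ω}, Eqv S a a' → Eqv S a' a'' → Eqv S a a''
  flip_flip : ∀ (e : E) (a : Ω), flip e (flip e a) = a
  good_flip : ∀ {S : Set E} (e : E) {a : Ω}, Good S a → Good S (flip e a)
  eqv_flip : ∀ {S : Set E} (e : E) {a a' : Ω}, Eqv S a a' → Eqv S (flip e a) (flip e a')
  ext : ∀ {S : Set E} (e : E) {a : Ω}, Good S a → (insert e S).encard < m →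
    ∃ a', Good (insert e S) a' ∧ Eqv S a a'
  fib : ∀ {S : Set E} (e : E) {a a' : Ω}, (insert e S).encard < m → Good (insert e S) a →
    Good (insert e S) a' → Eqv S a a' →
    Eqv (insert e S) a a' ∨ Eqv (insert e S) a (flip e a')

/-- A pseudo-model over a geometry. -/
structure PM extends Geo where
  D : Type
  supp : D → Set E
  supp_sub : ∀ d, (supp d).Subsingleton
  d0 : D
  supp_d0 : supp d0 = ∅
  flipD : E → D → D
  flipD_flipD : ∀ e d, flipD e (flipD e d) = d
  supp_flipD : ∀ e d, supp (flipD e d) = supp d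
  flipD_of_not : ∀ e d, e ∉ supp d → flipD e d = d
  fn : (k n : ℕ) → (Fin n → D) → Ω → D
  rel : (k n : ℕ) → (Fin n → D) → Ω → Prop
  supp_fn : ∀ k n ds a, supp (fn k n ds a) ⊆ ⋃ i, supp (ds i)
  fn_loc : ∀ k n ds a a', Eqv (⋃ i, supp (ds i)) a a' → fn k n ds a = fn k n ds a'
  rel_loc : ∀ k n ds a a', Eqv (⋃ i, supp (ds i)) a a' → rel k n ds a → rel k n ds a'
  fn_flip : ∀ k n ds a e, fn k n (fun i => flipD e (ds i)) (flip e a) = flipD e (fn k n ds a)
  rel_flip : ∀ k n ds a e, rel k n ds a → rel k n (fun i => flipD e (ds i)) (flip e a)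

namespace PM

variable (P : PM)

/-- Value of a term. -/
def ev (v : ℕ → P.D) (a : P.Ω) : Tm → P.D
  | .var i => v i
  | .app k n ts => P.fn k n (fun i => ev v a (ts i)) a

/-- Edges under the variables of a term. -/
def St (t : Tm) (v : ℕ → P.D) : Set P.E := {e | ∃ x, t.Occ x ∧ e ∈ P.supp (v x)}

/-- Edges under the free variables of a formula. -/
def Sf (φ : Fm) (v : ℕ → P.D) : Set P.E := {e | ∃ x, φ.Free x ∧ e ∈ P.supp (v x)}

/-- Satisfaction in the pseudo-model. -/
def Sat : Fm → (ℕ → P.D) → P.Ω → Prop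
  | .bot, _, _ => False
  | .eq s t, v, a => P.ev v a s = P.ev v a t
  | .rel k n ts, v, a => P.rel k n (fun i => P.ev v a (ts i)) a
  | .imp φ ψ, v, a => Sat φ v a → Sat ψ v a
  | .all x φ, v, a => ∀ d a', P.Good (P.Sf (.all x φ) v ∪ P.supp d) a' →
      P.Eqv (P.Sf (.all x φ) v) a a' → Sat φ (update v x d) a'

/-- Validity at a valuation. -/
def Loc (φ : Fm) (v : ℕ → P.D) : Prop := ∀ a, P.Good (P.Sf φ v) a → P.Sat φ v a

/-- Validity. -/
def Valid (φ : Fm) : Prop := ∀ v, P.Loc φ v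

variable {P}

@[simp] theorem ev_var (v : ℕ → P.D) (a : P.Ω) (i : ℕ) : P.ev v a (.var i) = v i := rfl
@[simp] theorem ev_app (v : ℕ → P.D) (a : P.Ω) (k n : ℕ) (ts : Fin n → Tm) :
    P.ev v a (.app k n ts) = P.fn k n (fun i => P.ev v a (ts i)) a := rfl
@[simp] theorem sat_bot (v : ℕ → P.D) (a : P.Ω) : P.Sat .bot v a ↔ False := Iff.rfl
@[simp] theorem sat_eq (s t : Tm) (v : ℕ → P.D) (a : P.Ω) :
    P.Sat (.eq s t) v a ↔ P.ev v a s = P.ev v a t := Iff.rfl
@[simp] theorem sat_rel (k n : ℕ) (ts : Fin n → Tm) (v : ℕ → P.D) (a : P.Ω) :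
    P.Sat (.rel k n ts) v a ↔ P.rel k n (fun i => P.ev v a (ts i)) a := Iff.rfl
@[simp] theorem sat_imp (φ ψ : Fm) (v : ℕ → P.D) (a : P.Ω) :
    P.Sat (.imp φ ψ) v a ↔ (P.Sat φ v a → P.Sat ψ v a) := Iff.rfl
@[simp] theorem sat_neg (φ : Fm) (v : ℕ → P.D) (a : P.Ω) :
    P.Sat (neg φ) v a ↔ ¬ P.Sat φ v a := Iff.rfl
theorem sat_all (x : ℕ) (φ : Fm) (v : ℕ → P.D) (a : P.Ω) :
    P.Sat (.all x φ) v a ↔ ∀ d a', P.Good (P.Sf (.all x φ) v ∪ P.supp d) a' →
      P.Eqv (P.Sf (.all x φ) v) a a' → P.Sat φ (update v x d) a' := Iff.rfl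

theorem St_app_sub {k n : ℕ} (ts : Fin n → Tm) (i : Fin n) (v : ℕ → P.D) :
    P.St (ts i) v ⊆ P.St (.app k n ts) v := by
  rintro e ⟨x, hx, he⟩
  exact ⟨x, ⟨i, hx⟩, he⟩

theorem supp_ev (t : Tm) (v : ℕ → P.D) (a : P.Ω) : P.supp (P.ev v a t) ⊆ P.St t v := by
  induction t with
  | var i => intro e he; exact ⟨i, rfl, he⟩
  | app k n ts ih =>
    refine (P.supp_fn _ _ _ _).trans (Set.iUnion_subset fun i => (ih i).trans (St_app_sub ts i v))

theorem ev_congr (t : Tm) {v w : ℕ → P.D} (a : P.Ω) (h : ∀ x, t.Occ x → v x = w x) :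
    P.ev v a t = P.ev w a t := by
  induction t with
  | var i => exact h i rfl
  | app k n ts ih =>
    simp only [ev_app]
    congr 1
    funext i
    exact ih i fun x hx => h x ⟨i, hx⟩

theorem ev_loc (t : Tm) (v : ℕ → P.D) {a a' : P.Ω} (h : P.Eqv (P.St t v) a a') :
    P.ev v a t = P.ev v a' t := by
  induction t with
  | var i => rfl
  | app k n ts ih =>
    simp only [ev_app]
    have h1 : (fun i => P.ev v a (ts i)) = fun i => P.ev v a' (ts i) :=
      funext fun i => ih i (P.eqv_mono (St_app_sub ts i v) h)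
    rw [← h1]
    refine P.fn_loc _ _ _ _ _ (P.eqv_mono ?_ h)
    exact Set.iUnion_subset fun i => (supp_ev _ _ _).trans (St_app_sub ts i v)

theorem ev_flip (t : Tm) (v : ℕ → P.D) (a : P.Ω) (e : P.E) :
    P.ev (fun x => P.flipD e (v x)) (P.flip e a) t = P.flipD e (P.ev v a t) := by
  induction t with
  | var i => rfl
  | app k n ts ih =>
    simp only [ev_app]
    rw [← P.fn_flip]
    congr 1
    funext i
    exact ih i

theorem ev_subst (t : Tm) (x : ℕ) (u : Tm) (v : ℕ → P.D) (a : P.Ω) :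
    P.ev v a (t.subst x u) = P.ev (update v x (P.ev v a u)) a t := by
  induction t with
  | var i =>
    by_cases h : i = x
    · subst h; simp [Tm.subst]
    · simp [Tm.subst, h]
  | app k n ts ih =>
    simp only [Tm.subst, ev_app]
    congr 1
    funext i
    exact ih i

theorem Sf_congr (φ : Fm) {v w : ℕ → P.D} (h : ∀ x, φ.Free x → v x = w x) :
    P.Sf φ v = P.Sf φ w := by
  ext e
  constructor
  · rintro ⟨x, hx, he⟩; exact ⟨x, hx, h x hx ▸ he⟩
  · rintro ⟨x, hx, he⟩; exact ⟨x, hx, (h x hx).symm ▸ he⟩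

theorem Sf_imp_left (φ ψ : Fm) (v : ℕ → P.D) : P.Sf φ v ⊆ P.Sf (.imp φ ψ) v := by
  rintro e ⟨x, hx, he⟩; exact ⟨x, Or.inl hx, he⟩

theorem Sf_imp_right (φ ψ : Fm) (v : ℕ → P.D) : P.Sf ψ v ⊆ P.Sf (.imp φ ψ) v := by
  rintro e ⟨x, hx, he⟩; exact ⟨x, Or.inr hx, he⟩

theorem Sf_update (x : ℕ) (φ : Fm) (v : ℕ → P.D) (d : P.D) :
    P.Sf φ (update v x d) ⊆ P.Sf (.all x φ) v ∪ P.supp d := by
  rintro e ⟨y, hy, he⟩
  by_cases h : y = x
  · subst h; right; simpa using he
  · left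
    rw [update_of_ne h] at he
    exact ⟨y, ⟨Ne.symm h, hy⟩, he⟩

theorem Sf_neg (φ : Fm) (v : ℕ → P.D) : P.Sf (neg φ) v = P.Sf φ v := by
  ext e
  constructor
  · rintro ⟨x, hx | hx, he⟩
    · exact ⟨x, hx, he⟩
    · exact hx.elim
  · rintro ⟨x, hx, he⟩; exact ⟨x, Or.inl hx, he⟩

theorem Sf_closed {φ : Fm} (h : φ.Closed) (v : ℕ → P.D) : P.Sf φ v = ∅ := by
  ext e
  constructor
  · rintro ⟨x, hx, -⟩; exact (h x hx).elim
  · intro h; exact h.elim

/-- Coincidence lemma. -/
theorem sat_congr (φ : Fm) : ∀ {v w : ℕ → P.D} (a : P.Ω), (∀ x, φ.Free x → v x = w x) →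
    (P.Sat φ v a ↔ P.Sat φ w a) := by
  induction φ with
  | bot => intro v w a _; rfl
  | eq s t =>
    intro v w a h
    rw [sat_eq, sat_eq, ev_congr s a fun x hx => h x (Or.inl hx),
      ev_congr t a fun x hx => h x (Or.inr hx)]
  | rel k n ts =>
    intro v w a h
    rw [sat_rel, sat_rel]
    have : (fun i => P.ev v a (ts i)) = fun i => P.ev w a (ts i) :=
      funext fun i => ev_congr _ a fun x hx => h x ⟨i, hx⟩
    rw [this]
  | imp φ ψ ih1 ih2 =>
    intro v w a h
    rw [sat_imp, sat_imp, ih1 a fun x hx => h x (Or.inl hx), ih2 a fun x hx => h x (Or.inr hx)]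
  | all y φ ih =>
    intro v w a h
    rw [sat_all, sat_all, Sf_congr _ h]
    refine forall_congr' fun d => forall_congr' fun a' => forall_congr' fun _ =>
      forall_congr' fun _ => ih a' fun x hx => ?_
    by_cases hxy : x = y
    · subst hxy; simp
    · rw [update_of_ne hxy, update_of_ne hxy]
      exact h x ⟨Ne.symm hxy, hx⟩

/-- Locality. -/
theorem sat_loc (φ : Fm) : ∀ (v : ℕ → P.D) {a a' : P.Ω}, P.Eqv (P.Sf φ v) a a' →
    (P.Sat φ v a ↔ P.Sat φ v a') := by
  induction φ with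
  | bot => intro v a a' _; rfl
  | eq s t =>
    intro v a a' h
    rw [sat_eq, sat_eq, ev_loc s v (P.eqv_mono _ h), ev_loc t v (P.eqv_mono _ h)]
    · rintro e ⟨x, hx, he⟩; exact ⟨x, Or.inr hx, he⟩
    · rintro e ⟨x, hx, he⟩; exact ⟨x, Or.inl hx, he⟩
  | rel k n ts =>
    intro v a a' h
    rw [sat_rel, sat_rel]
    have hs : ∀ i, P.St (ts i) v ⊆ P.Sf (.rel k n ts) v := by
      rintro i e ⟨x, hx, he⟩; exact ⟨x, ⟨i, hx⟩, he⟩
    have h1 : (fun i => P.ev v a (ts i)) = fun i => P.ev v a' (ts i) :=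
      funext fun i => ev_loc _ v (P.eqv_mono (hs i) h)
    rw [← h1]
    have h2 : P.Eqv (⋃ i, P.supp (P.ev v a (ts i))) a a' :=
      P.eqv_mono (Set.iUnion_subset fun i => (supp_ev _ _ _).trans (hs i)) h
    exact ⟨P.rel_loc _ _ _ _ _ h2, P.rel_loc _ _ _ _ _ (P.eqv_symm h2)⟩
  | imp φ ψ ih1 ih2 =>
    intro v a a' h
    rw [sat_imp, sat_imp, ih1 v (P.eqv_mono (Sf_imp_left φ ψ v) h),
      ih2 v (P.eqv_mono (Sf_imp_right φ ψ v) h)]
  | all y φ _ =>
    intro v a a' h
    rw [sat_all, sat_all]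
    exact ⟨fun H d b hb he => H d b hb (P.eqv_trans h he),
      fun H d b hb he => H d b hb (P.eqv_trans (P.eqv_symm h) he)⟩

theorem sat_loc' {φ : Fm} {v : ℕ → P.D} {a a' : P.Ω} {S : Set P.E} (hS : P.Sf φ v ⊆ S)
    (h : P.Eqv S a a') : P.Sat φ v a ↔ P.Sat φ v a' := sat_loc φ v (P.eqv_mono hS h)

theorem Sf_flip (φ : Fm) (v : ℕ → P.D) (e : P.E) :
    P.Sf φ (fun x => P.flipD e (v x)) = P.Sf φ v := by
  simp only [Sf, P.supp_flipD]

/-- Gauge invariance. -/
theorem sat_flip (φ : Fm) (e : P.E) : ∀ (v : ℕ → P.D) (a : P.Ω),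
    (P.Sat φ (fun x => P.flipD e (v x)) (P.flip e a) ↔ P.Sat φ v a) := by
  induction φ with
  | bot => intro v a; rfl
  | eq s t =>
    intro v a
    rw [sat_eq, sat_eq, ev_flip, ev_flip]
    exact (Involutive.injective (P.flipD_flipD e)).eq_iff
  | rel k n ts =>
    intro v a
    rw [sat_rel, sat_rel]
    simp only [ev_flip]
    refine ⟨fun h => ?_, P.rel_flip _ _ _ _ _⟩
    have := P.rel_flip _ _ _ _ e h
    simpa only [P.flipD_flipD, P.flip_flip] using this
  | imp φ ψ ih1 ih2 =>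
    intro v a
    rw [sat_imp, sat_imp, ih1, ih2]
  | all y φ ih =>
    intro v a
    rw [sat_all, sat_all, Sf_flip]
    have hu : ∀ d, update (fun x => P.flipD e (v x)) y (P.flipD e d) =
        fun x => P.flipD e (update v y d x) := by
      intro d
      funext x
      by_cases h : x = y
      · subst h; simp
      · simp [update_of_ne h]
    constructor
    · intro H d b hb he
      have := H (P.flipD e d) (P.flip e b) (by rw [P.supp_flipD]; exact P.good_flip e hb)
        (P.eqv_flip e he)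
      rw [hu, ih] at this
      exact this
    · intro H d b hb he
      have h1 := H (P.flipD e d) (P.flip e b) (by rw [P.supp_flipD]; exact P.good_flip e hb)
        (by simpa only [P.flip_flip] using P.eqv_flip e he)
      rw [← ih, ← hu, P.flipD_flipD, P.flip_flip] at h1
      exact h1

theorem encard_union_supp (S : Set P.E) (d : P.D) : (S ∪ P.supp d).encard ≤ S.encard + 1 :=
  (Set.encard_union_le _ _).trans
    (add_le_add_right (Set.encard_le_one_iff_subsingleton.2 (P.supp_sub d)) _)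

/-- One extension step over the support of an element. -/
theorem ext_supp {S : Set P.E} {a : P.Ω} (d : P.D) (hg : P.Good S a)
    (hc : (S ∪ P.supp d).encard < P.m) : ∃ a', P.Good (S ∪ P.supp d) a' ∧ P.Eqv S a a' := by
  rcases (P.supp_sub d).eq_empty_or_singleton with h | ⟨e, h⟩
  · exact ⟨a, by simpa [h] using hg, P.eqv_refl _ _⟩
  · rw [h, Set.union_singleton] at hc ⊢
    exact P.ext e hg hc

/-- Extension to any small superset. -/
theorem ext_sup {S T : Set P.E} {a : P.Ω} (hST : S ⊆ T) (hg : P.Good S a)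
    (hc : T.encard < P.m) : ∃ a', P.Good T a' ∧ P.Eqv S a a' := by
  have hT : T.Finite := Set.encard_lt_top_iff.1 (lt_of_lt_of_le hc le_top)
  have key : ∀ U : Set P.E, U.Finite → U ⊆ T → ∃ a', P.Good (S ∪ U) a' ∧ P.Eqv S a a' := by
    intro U hU
    induction U, hU using Set.Finite.induction_on with
    | empty => intro _; exact ⟨a, by simpa using hg, P.eqv_refl _ _⟩
    | @insert e U _ _ ih =>
      intro hsub
      obtain ⟨a', h1, h2⟩ := ih ((Set.subset_insert _ _).trans hsub)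
      have hc' : (insert e (S ∪ U)).encard < P.m := by
        refine lt_of_le_of_lt (Set.encard_le_encard ?_) hc
        rw [← Set.union_insert]
        exact Set.union_subset hST hsub
      obtain ⟨a'', h3, h4⟩ := P.ext e h1 hc'
      refine ⟨a'', by rwa [Set.union_insert], P.eqv_trans h2 (P.eqv_mono Set.subset_union_left h4)⟩
  obtain ⟨a', h1, h2⟩ := key T hT subset_rfl
  exact ⟨a', P.good_mono Set.subset_union_right h1, h2⟩

/-- The key lemma: the quantifier clause may be read over any small good superset. -/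
theorem key {x : ℕ} {φ : Fm} {v : ℕ → P.D} {a : P.Ω} {S : Set P.E} (hg : P.Good S a)
    (hS : P.Sf (.all x φ) v ⊆ S) (hc : S.encard + 1 < P.m) :
    P.Sat (.all x φ) v a ↔
      ∀ d a', P.Good (S ∪ P.supp d) a' → P.Eqv S a a' → P.Sat φ (update v x d) a' := by
  rw [sat_all]
  constructor
  · intro H d a' h1 h2
    exact H d a' (P.good_mono (Set.union_subset_union_left _ hS) h1) (P.eqv_mono hS h2)
  · intro H d a' h1 h2
    have hc' : (S ∪ P.supp d).encard < P.m := lt_of_le_of_lt (encard_union_supp S d) hc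
    by_cases hd : P.supp d ⊆ P.Sf (.all x φ) v
    · have h3 := H d a (by rwa [Set.union_eq_left.2 (hd.trans hS)]) (P.eqv_refl _ _)
      refine (sat_loc' ?_ h2).1 h3
      exact (Sf_update x φ v d).trans (Set.union_subset subset_rfl hd)
    · rcases (P.supp_sub d).eq_empty_or_singleton with h | ⟨e, h⟩
      · exact (hd (by simp [h])).elim
      obtain ⟨b, hb1, hb2⟩ := ext_supp d hg hc'
      have he : e ∉ P.Sf (.all x φ) v := fun h' => hd (by simpa [h] using h')
      have hU : P.Sf (.all x φ) v ∪ P.supp d = insert e (P.Sf (.all x φ) v) := by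
        rw [h, Set.union_singleton]
      have hb3 : P.Good (P.Sf (.all x φ) v ∪ P.supp d) b :=
        P.good_mono (Set.union_subset_union_left _ hS) hb1
      have hc'' : (P.Sf (.all x φ) v ∪ P.supp d).encard < P.m :=
        lt_of_le_of_lt (Set.encard_le_encard (Set.union_subset_union_left _ hS)) hc'
      have h4 : P.Eqv (P.Sf (.all x φ) v) a' b :=
        P.eqv_trans (P.eqv_symm h2) (P.eqv_mono hS hb2)
      have h5 := P.fib e (hU ▸ hc'') (hU ▸ h1) (hU ▸ hb3) h4
      rw [← hU] at h5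
      rcases h5 with h5 | h5
      · exact (sat_loc' (Sf_update x φ v d) h5).2 (H d b hb1 hb2)
      · refine (sat_loc' (Sf_update x φ v d) h5).2 ?_
        have h6 := H (P.flipD e d) b (by rwa [P.supp_flipD]) hb2
        rw [← sat_flip φ e] at h6
        refine (sat_congr φ _ fun y hy => ?_).1 h6
        by_cases hyx : y = x
        · subst hyx; simp [P.flipD_flipD]
        · rw [update_of_ne hyx, update_of_ne hyx]
          exact P.flipD_of_not e _ fun h' => he ⟨y, ⟨Ne.symm hyx, hy⟩, h'⟩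

end PM

end Pool.Agent.MP_8ec908_lc.H47
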