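import Pool.Agent.MP_8ec908_lc.H47.Sound

namespace Pool.Agent.MP_8ec908_lc.H47

open Pool.Agent.MP_8ec908_lc.Defs Function

/-- An ordinary first-order structure for the full language. -/
structure Str where
  D : Type
  d0 : D
  fn : (k n : ℕ) → (Fin n → D) → D
  rel : (k n : ℕ) → (Fin n → D) → Prop

namespace Str

variable (M : Str)

/-- Value of a term. -/
def ev (v : ℕ → M.D) : Tm → M.D
  | .var i => v i
  | .app k n ts => M.fn k n (fun i => ev v (ts i))

/-- Tarski satisfaction. -/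
def Sat : Fm → (ℕ → M.D) → Prop
  | .bot, _ => False
  | .eq s t, v => M.ev v s = M.ev v t
  | .rel k n ts, v => M.rel k n (fun i => M.ev v (ts i))
  | .imp φ ψ, v => Sat φ v → Sat ψ v
  | .all x φ, v => ∀ d, Sat φ (update v x d)

/-- The trivial pseudo-model of a structure. -/
def toPM : PM where
  E := Empty
  Ω := Unit
  m := ⊤
  Good _ _ := True
  Eqv _ _ _ := True
  flip _ a := a
  a0 := ()
  good_a0 := trivial
  good_mono _ _ := trivial
  eqv_mono _ _ := trivial
  eqv_refl _ _ := trivial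
  eqv_symm _ := trivial
  eqv_trans _ _ := trivial
  flip_flip _ _ := rfl
  good_flip _ _ _ := trivial
  eqv_flip _ _ _ _ := trivial
  ext e := e.elim
  fib e := e.elim
  D := M.D
  supp _ := ∅
  supp_sub _ := Set.subsingleton_empty
  d0 := M.d0
  supp_d0 := rfl
  flipD _ d := d
  flipD_flipD _ _ := rfl
  supp_flipD _ _ := rfl
  flipD_of_not _ _ _ := rfl
  fn k n ds _ := M.fn k n ds
  rel k n ds _ := M.rel k n ds
  supp_fn _ _ _ _ := Set.empty_subset _
  fn_loc _ _ _ _ _ _ := rfl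
  rel_loc _ _ _ _ _ _ h := h
  fn_flip _ _ _ _ _ := rfl
  rel_flip _ _ _ _ _ h := h

variable {M}

@[simp] theorem ev_var (v : ℕ → M.D) (i : ℕ) : M.ev v (.var i) = v i := rfl
@[simp] theorem ev_app (v : ℕ → M.D) (k n : ℕ) (ts : Fin n → Tm) :
    M.ev v (.app k n ts) = M.fn k n (fun i => M.ev v (ts i)) := rfl
@[simp] theorem sat_bot (v : ℕ → M.D) : M.Sat .bot v ↔ False := Iff.rfl
@[simp] theorem sat_eq (s t : Tm) (v : ℕ → M.D) :
    M.Sat (.eq s t) v ↔ M.ev v s = M.ev v t := Iff.rfl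
@[simp] theorem sat_rel (k n : ℕ) (ts : Fin n → Tm) (v : ℕ → M.D) :
    M.Sat (.rel k n ts) v ↔ M.rel k n (fun i => M.ev v (ts i)) := Iff.rfl
@[simp] theorem sat_imp (φ ψ : Fm) (v : ℕ → M.D) :
    M.Sat (.imp φ ψ) v ↔ (M.Sat φ v → M.Sat ψ v) := Iff.rfl
@[simp] theorem sat_all (x : ℕ) (φ : Fm) (v : ℕ → M.D) :
    M.Sat (.all x φ) v ↔ ∀ d, M.Sat φ (update v x d) := Iff.rfl
@[simp] theorem sat_neg (φ : Fm) (v : ℕ → M.D) : M.Sat (neg φ) v ↔ ¬ M.Sat φ v := Iff.rfl
@[simp] theorem sat_ex (x : ℕ) (φ : Fm) (v : ℕ → M.D) :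
    M.Sat (ex x φ) v ↔ ∃ d, M.Sat φ (update v x d) := by
  simp [ex]

theorem toPM_ev (v : ℕ → M.D) (t : Tm) : M.toPM.ev v () t = M.ev v t := by
  induction t with
  | var i => rfl
  | app k n ts ih =>
    show M.fn k n _ = M.fn k n _
    congr 1
    funext i
    exact ih i

theorem toPM_sat (φ : Fm) : ∀ v : ℕ → M.D, M.toPM.Sat φ v () ↔ M.Sat φ v := by
  induction φ with
  | bot => intro v; rfl
  | eq s t => intro v; rw [PM.sat_eq, toPM_ev, toPM_ev]; rfl
  | rel k n ts =>
    intro v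
    rw [PM.sat_rel]
    simp only [toPM_ev]
    rfl
  | imp φ ψ ih1 ih2 => intro v; rw [PM.sat_imp, ih1, ih2]; rfl
  | all x φ ih =>
    intro v
    rw [PM.sat_all, sat_all]
    exact forall_congr' fun d => ⟨fun h => (ih _).1 (h () trivial trivial),
      fun h _ _ _ => (ih _).2 h⟩

theorem ev_congr (t : Tm) {v w : ℕ → M.D} (h : ∀ x, t.Occ x → v x = w x) :
    M.ev v t = M.ev w t := by
  rw [← toPM_ev, ← toPM_ev]
  exact PM.ev_congr (P := M.toPM) t () h

theorem ev_subst (t : Tm) (x : ℕ) (u : Tm) (v : ℕ → M.D) :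
    M.ev v (t.subst x u) = M.ev (update v x (M.ev v u)) t := by
  rw [← toPM_ev, ← toPM_ev, ← toPM_ev]
  exact PM.ev_subst (P := M.toPM) t x u v ()

theorem sat_congr (φ : Fm) {v w : ℕ → M.D} (h : ∀ x, φ.Free x → v x = w x) :
    M.Sat φ v ↔ M.Sat φ w := by
  rw [← toPM_sat, ← toPM_sat]
  exact PM.sat_congr (P := M.toPM) φ () h

theorem sat_subst (φ : Fm) (x : ℕ) (u : Tm) (v : ℕ → M.D) (hf : φ.FreeFor x u) :
    M.Sat (φ.subst x u) v ↔ M.Sat φ (update v x (M.ev v u)) := by
  rw [← toPM_sat, ← toPM_sat, ← toPM_ev]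
  refine PM.sat_subst (P := M.toPM) (S := ∅) φ x u hf trivial (fun e => e.elim)
    (fun e => e.elim) ?_
  rw [Set.encard_empty, zero_add]
  exact ENat.natCast_lt_top _

/-- Ordinary soundness. -/
theorem sound {A p : List Fm} (hp : IsProof A p) (hA : ∀ φ ∈ A, ∀ v, M.Sat φ v) :
    ∀ φ ∈ p, ∀ v, M.Sat φ v := by
  intro φ hφ v
  rw [← toPM_sat]
  refine PM.sound (P := M.toPM) hp (fun _ _ => ENat.natCast_lt_top _) ?_ φ hφ v () trivial
  intro ψ hψ _ w a _
  exact (toPM_sat ψ w).2 (hA ψ hψ w)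

end Str

theorem freeFor_of_closed (φ : Fm) (x : ℕ) (u : Tm) (hu : ∀ y, ¬ u.Occ y) : φ.FreeFor x u := by
  induction φ with
  | bot => trivial
  | eq _ _ => trivial
  | rel _ _ _ => trivial
  | imp φ ψ ih1 ih2 => exact ⟨ih1, ih2⟩
  | all y φ ih => exact Or.inr ⟨hu y, ih⟩

theorem num_closed (n : ℕ) : ∀ y, ¬ (num n).Occ y := by
  induction n with
  | zero => rintro y ⟨i, -⟩; exact i.elim0
  | succ n ih =>
    rintro y ⟨i, hi⟩
    fin_cases i
    exact ih y hi

namespace PM

variable (P : PM)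

/-- The ordinary structure obtained by freezing the state at `a0`. -/
def str : Str where
  D := P.D
  d0 := P.d0
  fn k n ds := P.fn k n ds P.a0
  rel k n ds := P.rel k n ds P.a0

/-- The value of the term does not depend on the state. -/
def IndT : Tm → Prop
  | .var _ => True
  | .app k n ts => (∀ ds a a', P.fn k n ds a = P.fn k n ds a') ∧ ∀ i, IndT (ts i)

/-- No symbol of the formula depends on the state. -/
def Ind : Fm → Prop
  | .bot => True
  | .eq s t => P.IndT s ∧ P.IndT t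
  | .rel k n ts => (∀ ds a a', P.rel k n ds a → P.rel k n ds a') ∧ ∀ i, P.IndT (ts i)
  | .imp φ ψ => Ind φ ∧ Ind ψ
  | .all _ φ => Ind φ

variable {P}

theorem ev_str (t : Tm) (h : P.IndT t) (v : ℕ → P.D) (a : P.Ω) : P.ev v a t = P.str.ev v t := by
  induction t with
  | var i => rfl
  | app k n ts ih =>
    rw [ev_app, h.1 _ a P.a0]
    show P.fn k n _ _ = P.fn k n _ _
    congr 1
    funext i
    exact ih i (h.2 i)

/-- Transfer: state independent formulas of small width have their ordinary truth value. -/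
theorem sat_str (φ : Fm) (h : P.Ind φ) : ∀ {v : ℕ → P.D} {a : P.Ω} {S : Set P.E},
    P.Good S a → P.Sf φ v ⊆ S → S.encard + φ.rank < P.m → (P.Sat φ v a ↔ P.str.Sat φ v) := by
  induction φ with
  | bot => intros; rfl
  | eq s t =>
    intro v a S _ _ _
    rw [sat_eq, ev_str s h.1, ev_str t h.2]
    rfl
  | rel k n ts =>
    intro v a S _ _ _
    rw [sat_rel]
    have : (fun i => P.ev v a (ts i)) = fun i => P.str.ev v (ts i) :=
      funext fun i => ev_str _ (h.2 i) v a
    rw [this]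
    exact ⟨h.1 _ _ _, h.1 _ _ _⟩
  | imp φ ψ ih1 ih2 =>
    intro v a S hg hS hc
    have h1 : S.encard + φ.rank < P.m :=
      lt_of_le_of_lt (add_le_add le_rfl (by exact_mod_cast le_max_left _ _)) hc
    have h2 : S.encard + ψ.rank < P.m :=
      lt_of_le_of_lt (add_le_add le_rfl (by exact_mod_cast le_max_right _ _)) hc
    rw [sat_imp, ih1 h.1 hg ((Sf_imp_left _ _ v).trans hS) h1,
      ih2 h.2 hg ((Sf_imp_right _ _ v).trans hS) h2]
    rfl
  | all x φ ih =>
    intro v a S hg hS hc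
    have hc1 : S.encard + 1 < P.m := by
      refine lt_of_le_of_lt (add_le_add le_rfl ?_) hc
      simp only [Fm.rank]
      push_cast
      exact le_add_self
    have hc2 : ∀ d, (S ∪ P.supp d).encard + φ.rank < P.m := by
      intro d
      refine lt_of_le_of_lt ?_ hc
      simp only [Fm.rank]
      push_cast
      calc _ ≤ S.encard + 1 + (φ.rank : ℕ∞) := add_le_add (encard_union_supp S d) le_rfl
        _ = _ := by abel
    have hS' : ∀ d, P.Sf φ (update v x d) ⊆ S ∪ P.supp d := fun d =>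
      (Sf_update x φ v d).trans (Set.union_subset_union_left _ hS)
    rw [key hg hS hc1, Str.sat_all]
    refine forall_congr' fun d => ⟨fun H => ?_, fun H a' h1 _ => ?_⟩
    · obtain ⟨a', h1, h2⟩ := ext_supp d hg (lt_of_le_of_lt le_self_add (hc2 d))
      exact (ih h h1 (hS' d) (hc2 d)).1 (H a' h1 h2)
    · exact (ih h h1 (hS' d) (hc2 d)).2 H

/-- A short state independent formula that is true in the frozen structure is valid. -/
theorem valid_of_str {φ : Fm} (h : P.Ind φ) (hc : (φ.str.length : ℕ∞) < P.m)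
    (ht : ∀ v, P.str.Sat φ v) : P.Valid φ := fun v _ hg =>
  (sat_str φ h hg subset_rfl (lt_of_le_of_lt (Sf_rank_le φ v) hc)).2 (ht v)

/-- The same for a closed formula, with the rank as the only bound. -/
theorem valid_of_str_closed {φ : Fm} (h : P.Ind φ) (hcl : φ.Closed) (hc : (φ.rank : ℕ∞) < P.m)
    (ht : ∀ v, P.str.Sat φ v) : P.Valid φ := fun v _ hg =>
  (sat_str φ h hg subset_rfl (by rwa [Sf_closed hcl, Set.encard_empty, zero_add])).2 (ht v)

end PM

end Pool.Agent.MP_8ec908_lc.H47
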