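import Pool.Agent.MP_8ec908_lc.H47.PM

namespace Pool.Agent.MP_8ec908_lc.H47

open Pool.Agent.MP_8ec908_lc.Defs Function

theorem tm_subst_of_not_occ (t : Tm) (x : ℕ) (u : Tm) (h : ¬ t.Occ x) : t.subst x u = t := by
  induction t with
  | var i =>
    have : i ≠ x := h
    simp [Tm.subst, this]
  | app k n ts ih =>
    simp only [Tm.subst]
    congr 1
    funext i
    exact ih i fun h' => h ⟨i, h'⟩

theorem subst_of_not_free (φ : Fm) (x : ℕ) (u : Tm) (h : ¬ φ.Free x) : φ.subst x u = φ := by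
  induction φ with
  | bot => rfl
  | eq s t =>
    simp only [Fm.subst]
    rw [tm_subst_of_not_occ s x u fun h' => h (Or.inl h'),
      tm_subst_of_not_occ t x u fun h' => h (Or.inr h')]
  | rel k n ts =>
    simp only [Fm.subst]
    congr 1
    funext i
    exact tm_subst_of_not_occ _ x u fun h' => h ⟨i, h'⟩
  | imp φ ψ ih1 ih2 =>
    simp only [Fm.subst]
    rw [ih1 fun h' => h (Or.inl h'), ih2 fun h' => h (Or.inr h')]
  | all y φ ih =>
    simp only [Fm.subst]
    split_ifs with hy
    · rfl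
    · rw [ih fun h' => h ⟨hy, h'⟩]

theorem occ_subst_of_occ (t : Tm) (x : ℕ) (u : Tm) (y : ℕ) (hx : t.Occ x) (hy : u.Occ y) :
    (t.subst x u).Occ y := by
  induction t with
  | var i =>
    have : i = x := hx
    simp [Tm.subst, this, hy]
  | app k n ts ih =>
    obtain ⟨i, hi⟩ := hx
    exact ⟨i, ih i hi⟩

theorem free_subst_of_free (φ : Fm) (x : ℕ) (u : Tm) (y : ℕ) (hf : φ.FreeFor x u)
    (hx : φ.Free x) (hy : u.Occ y) : (φ.subst x u).Free y := by
  induction φ with
  | bot => exact hx.elim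
  | eq s t =>
    rcases hx with h | h
    · exact Or.inl (occ_subst_of_occ s x u y h hy)
    · exact Or.inr (occ_subst_of_occ t x u y h hy)
  | rel k n ts =>
    obtain ⟨i, hi⟩ := hx
    exact ⟨i, occ_subst_of_occ _ x u y hi hy⟩
  | imp φ ψ ih1 ih2 =>
    rcases hx with h | h
    · exact Or.inl (ih1 hf.1 h)
    · exact Or.inr (ih2 hf.2 h)
  | all z φ ih =>
    rcases hf with hf | hf
    · exact (hf hx).elim
    · simp only [Fm.subst, if_neg hx.1]
      exact ⟨fun h => hf.1 (h ▸ hy), ih hf.2 hx.2⟩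

theorem occ_subst (t : Tm) (x : ℕ) (u : Tm) (y : ℕ) (h : (t.subst x u).Occ y) :
    (t.Occ y ∧ y ≠ x) ∨ u.Occ y := by
  induction t with
  | var i =>
    by_cases hi : i = x
    · right; simpa [Tm.subst, hi] using h
    · left
      have : i = y := by simpa [Tm.subst, hi, Tm.Occ] using h
      exact ⟨this, this ▸ hi⟩
  | app k n ts ih =>
    obtain ⟨i, hi⟩ := h
    rcases ih i hi with h | h
    · exact Or.inl ⟨⟨i, h.1⟩, h.2⟩
    · exact Or.inr h

theorem free_subst (φ : Fm) (x : ℕ) (u : Tm) (y : ℕ) (h : (φ.subst x u).Free y) :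
    (φ.Free y ∧ y ≠ x) ∨ u.Occ y := by
  induction φ with
  | bot => exact h.elim
  | eq s t =>
    rcases h with h | h
    · exact (occ_subst s x u y h).imp (fun h => ⟨Or.inl h.1, h.2⟩) id
    · exact (occ_subst t x u y h).imp (fun h => ⟨Or.inr h.1, h.2⟩) id
  | rel k n ts =>
    obtain ⟨i, hi⟩ := h
    exact (occ_subst _ x u y hi).imp (fun h => ⟨⟨i, h.1⟩, h.2⟩) id
  | imp φ ψ ih1 ih2 =>
    rcases h with h | h
    · exact (ih1 h).imp (fun h => ⟨Or.inl h.1, h.2⟩) id
    · exact (ih2 h).imp (fun h => ⟨Or.inr h.1, h.2⟩) id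
  | all z φ ih =>
    simp only [Fm.subst] at h
    split_ifs at h with hz
    · exact Or.inl ⟨h, fun h' => h.1 (hz.trans h'.symm)⟩
    · exact (ih h.2).imp (fun h' => ⟨⟨h.1, h'.1⟩, h'.2⟩) id

theorem tm_card (t : Tm) : {x | t.Occ x}.encard ≤ t.str.length := by
  induction t with
  | var i =>
    have : {x | (Tm.var i).Occ x} = {i} := by ext x; simp [Tm.Occ, eq_comm]
    rw [this, Set.encard_singleton]
    simp [Tm.str]
  | app k n ts ih =>
    have : {x | (Tm.app k n ts).Occ x} = ⋃ i, {x | (ts i).Occ x} := by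
      ext x; simp [Tm.Occ]
    rw [this]
    refine (Set.encard_iUnion_le_of_fintype _).trans ?_
    refine (Finset.sum_le_sum fun i _ => ih i).trans ?_
    simp only [Tm.str, List.length_cons, List.length_append, List.length_flatten, List.map_ofFn,
      List.sum_ofFn, Function.comp]
    push_cast
    exact le_add_left (le_refl _) |>.trans le_self_add

theorem fm_card (φ : Fm) : {x | φ.Free x}.encard + φ.rank ≤ φ.str.length := by
  induction φ with
  | bot => simp [Fm.Free, Fm.rank]
  | eq s t =>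
    have : {x | (Fm.eq s t).Free x} = {x | s.Occ x} ∪ {x | t.Occ x} := rfl
    rw [this]
    simp only [Fm.rank, Nat.cast_zero, add_zero, Fm.str, List.length_cons, List.length_append]
    push_cast
    exact ((Set.encard_union_le _ _).trans (add_le_add (tm_card s) (tm_card t))).trans le_self_add
  | rel k n ts =>
    have : {x | (Fm.rel k n ts).Free x} = ⋃ i, {x | (ts i).Occ x} := by
      ext x; simp [Fm.Free]
    rw [this]
    simp only [Fm.rank, Nat.cast_zero, add_zero]
    refine (Set.encard_iUnion_le_of_fintype _).trans ?_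
    refine (Finset.sum_le_sum fun i _ => tm_card _).trans ?_
    simp only [Fm.str, List.length_cons, List.length_append, List.length_flatten, List.map_ofFn,
      List.sum_ofFn, Function.comp]
    push_cast
    exact le_add_left (le_refl _) |>.trans le_self_add
  | imp φ ψ ih1 ih2 =>
    have : {x | (Fm.imp φ ψ).Free x} = {x | φ.Free x} ∪ {x | ψ.Free x} := rfl
    rw [this]
    simp only [Fm.rank, Fm.str, List.length_cons, List.length_append]
    have h1 : ((max φ.rank ψ.rank : ℕ) : ℕ∞) ≤ φ.rank + ψ.rank := by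
      exact_mod_cast max_le_add_of_nonneg (Nat.zero_le _) (Nat.zero_le _)
    push_cast
    calc _ ≤ ({x | φ.Free x}.encard + {x | ψ.Free x}.encard) + ((φ.rank : ℕ∞) + ψ.rank) :=
          add_le_add (Set.encard_union_le _ _) (by exact_mod_cast h1)
      _ = ({x | φ.Free x}.encard + φ.rank) + ({x | ψ.Free x}.encard + ψ.rank) := by abel
      _ ≤ (φ.str.length : ℕ∞) + ψ.str.length := add_le_add ih1 ih2
      _ ≤ _ := le_self_add
  | all y φ ih =>
    have h1 : {x | (Fm.all y φ).Free x}.encard ≤ {x | φ.Free x}.encard :=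
      Set.encard_le_encard fun x hx => hx.2
    simp only [Fm.rank, Fm.str, List.length_cons, List.length_append]
    push_cast
    calc _ ≤ {x | φ.Free x}.encard + ((φ.rank : ℕ∞) + 1) := add_le_add h1 le_rfl
      _ = ({x | φ.Free x}.encard + φ.rank) + 1 := by abel
      _ ≤ (φ.str.length : ℕ∞) + 1 := add_le_add ih le_rfl
      _ ≤ _ := add_le_add le_add_self le_rfl

namespace PM

variable {P : PM}

theorem Sf_card (φ : Fm) (v : ℕ → P.D) : (P.Sf φ v).encard ≤ {x | φ.Free x}.encard := by
  classical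
  have : ∀ e : P.Sf φ v, ∃ x : {x | φ.Free x}, e.1 ∈ P.supp (v x) := by
    rintro ⟨e, x, hx, he⟩
    exact ⟨⟨x, hx⟩, he⟩
  choose f hf using this
  refine Function.Embedding.encard_le ⟨f, fun e e' h => Subtype.ext ?_⟩
  exact P.supp_sub _ (hf e) (h ▸ hf e')

theorem Sf_rank_le (φ : Fm) (v : ℕ → P.D) : (P.Sf φ v).encard + φ.rank ≤ φ.str.length :=
  (add_le_add (Sf_card φ v) le_rfl).trans (fm_card φ)

/-- Substitution lemma. -/
theorem sat_subst (φ : Fm) (x : ℕ) (u : Tm) : ∀ {v : ℕ → P.D} {a : P.Ω} {S : Set P.E},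
    φ.FreeFor x u → P.Good S a → P.Sf (.all x φ) v ⊆ S → P.St u v ⊆ S →
    S.encard + φ.rank < P.m →
    (P.Sat (φ.subst x u) v a ↔ P.Sat φ (update v x (P.ev v a u)) a) := by
  induction φ with
  | bot => intros; rfl
  | eq s t => intros; simp only [Fm.subst, sat_eq, ev_subst]
  | rel k n ts => intros; simp only [Fm.subst, sat_rel, ev_subst]
  | imp φ ψ ih1 ih2 =>
    intro v a S hf hg hS hu hc
    simp only [Fm.subst, sat_imp]
    have h1 : S.encard + φ.rank < P.m :=
      lt_of_le_of_lt (add_le_add le_rfl (by exact_mod_cast le_max_left _ _)) hc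
    have h2 : S.encard + ψ.rank < P.m :=
      lt_of_le_of_lt (add_le_add le_rfl (by exact_mod_cast le_max_right _ _)) hc
    rw [ih1 hf.1 hg (subset_trans ?_ hS) hu h1, ih2 hf.2 hg (subset_trans ?_ hS) hu h2]
    · rintro e ⟨y, hy, he⟩; exact ⟨y, ⟨hy.1, Or.inr hy.2⟩, he⟩
    · rintro e ⟨y, hy, he⟩; exact ⟨y, ⟨hy.1, Or.inl hy.2⟩, he⟩
  | all y φ ih =>
    intro v a S hf hg hS hu hc
    by_cases hx : (Fm.all y φ).Free x
    swap
    · rw [subst_of_not_free _ _ _ hx]
      refine sat_congr _ _ fun z hz => ?_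
      rw [update_of_ne]
      rintro rfl
      exact hx hz
    rcases hf with hf | hf
    · exact (hf hx).elim
    have hyx : y ≠ x := hx.1
    have hc1 : S.encard + 1 < P.m := by
      refine lt_of_le_of_lt (add_le_add le_rfl ?_) hc
      simp only [Fm.rank]
      push_cast
      exact le_add_self
    simp only [Fm.subst, if_neg hyx]
    have hS1 : P.Sf (.all y (φ.subst x u)) v ⊆ S := by
      rintro e ⟨z, hz, he⟩
      rcases free_subst φ x u z hz.2 with h | h
      · exact hS ⟨z, ⟨h.2.symm, hz.1, h.1⟩, he⟩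
      · exact hu ⟨z, h, he⟩
    have hS2 : P.Sf (.all y φ) (update v x (P.ev v a u)) ⊆ S :=
      (Sf_update x _ v _).trans (Set.union_subset hS ((supp_ev u v a).trans hu))
    rw [key hg hS1 hc1, key hg hS2 hc1]
    refine forall_congr' fun d => forall_congr' fun a' => forall_congr' fun hg' =>
      forall_congr' fun he => ?_
    have hv : ∀ z, u.Occ z → update v y d z = v z := fun z hz =>
      update_of_ne (by rintro rfl; exact hf.1 hz) _ _
    rw [ih (S := S ∪ P.supp d) hf.2 hg' ?_ ?_ ?_]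
    · rw [ev_congr u a' hv, ← ev_loc u v (P.eqv_mono hu he), update_comm hyx]
    · rintro e ⟨z, hz, he⟩
      by_cases hzy : z = y
      · subst hzy; right; simpa using he
      · rw [update_of_ne hzy] at he
        exact Or.inl (hS ⟨z, ⟨hz.1, Ne.symm hzy, hz.2⟩, he⟩)
    · rintro e ⟨z, hz, he⟩
      rw [hv z hz] at he
      exact Or.inl (hu ⟨z, hz, he⟩)
    · refine lt_of_le_of_lt ?_ hc
      simp only [Fm.rank]
      push_cast
      calc _ ≤ S.encard + 1 + (φ.rank : ℕ∞) := add_le_add (encard_union_supp S d) le_rfl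
        _ = _ := by abel

theorem sat_of_loc {φ : Fm} {v : ℕ → P.D} (h : P.Loc φ v) {S : Set P.E} {a : P.Ω}
    (hS : P.Sf φ v ⊆ S) (hg : P.Good S a) : P.Sat φ v a := h a (P.good_mono hS hg)

/-- A universal formula whose instances are valid is satisfied in every state. -/
theorem sat_all_of_loc {x : ℕ} {φ : Fm} {v : ℕ → P.D} (h : ∀ d, P.Loc φ (update v x d))
    (a : P.Ω) : P.Sat (.all x φ) v a :=
  fun d _ hg _ => sat_of_loc (h d) (Sf_update x φ v d) hg

theorem loc_all {x : ℕ} {φ : Fm} {v : ℕ → P.D} (h : ∀ d, P.Loc φ (update v x d)) :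
    P.Loc (.all x φ) v := fun a _ => sat_all_of_loc h a

theorem valid_all (x : ℕ) {φ : Fm} (h : P.Valid φ) : P.Valid (.all x φ) :=
  fun _ => loc_all fun _ => h _

theorem loc_of_sat {φ : Fm} {v : ℕ → P.D} (h : ∀ a, P.Sat φ v a) : P.Loc φ v := fun a _ => h a

/-- Existential introduction; one extension step is spent. -/
theorem sat_ex {x : ℕ} {φ : Fm} {v : ℕ → P.D} {a : P.Ω} (d : P.D)
    (hg : P.Good (P.Sf (ex x φ) v) a) (hc : (P.Sf (ex x φ) v).encard + 1 < P.m)
    (h : P.Loc φ (update v x d)) : P.Sat (ex x φ) v a := by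
  intro H
  have hS : P.Sf (ex x φ) v = P.Sf (.all x (neg φ)) v := Sf_neg _ _
  rw [hS] at hg hc
  obtain ⟨a', h1, h2⟩ := ext_supp d hg (lt_of_le_of_lt (encard_union_supp _ d) hc)
  refine H d a' h1 h2 (sat_of_loc h ?_ h1)
  rw [← Sf_neg]
  exact Sf_update x _ v d

theorem valid_mp {φ ψ : Fm} (h1 : P.Valid φ) (h2 : P.Valid (.imp φ ψ))
    (hc : ((Fm.imp φ ψ).str.length : ℕ∞) < P.m) : P.Valid ψ := by
  intro v a hg
  obtain ⟨a', h3, h4⟩ := ext_sup (Sf_imp_right φ ψ v) hg
    (lt_of_le_of_lt (le_self_add.trans (Sf_rank_le _ v)) hc)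
  exact (sat_loc ψ v h4).2 (h2 v a' h3 (sat_of_loc (h1 v) (Sf_imp_left φ ψ v) h3))

theorem valid_logAx {φ : Fm} (h : LogAx φ) (hc : (φ.str.length : ℕ∞) < P.m) : P.Valid φ := by
  intro v a hg
  have hc' := lt_of_le_of_lt (Sf_rank_le φ v) hc
  cases h with
  | k φ ψ => exact fun h _ => h
  | s φ ψ χ => exact fun h1 h2 h3 => h1 h3 (h2 h3)
  | dn φ => exact fun h => Classical.byContradiction fun h' => h h'
  | inst x u φ hf =>
    intro H
    by_cases hx : φ.Free x
    · have hu : P.St u v ⊆ P.Sf (.imp (.all x φ) (φ.subst x u)) v := by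
        rintro e ⟨y, hy, he⟩
        exact ⟨y, Or.inr (free_subst_of_free φ x u y hf hx hy), he⟩
      rw [sat_subst φ x u hf hg (Sf_imp_left _ _ v) hu ?_]
      · exact H _ a (P.good_mono (Set.union_subset (Sf_imp_left _ _ v)
          ((supp_ev u v a).trans hu)) hg) (P.eqv_refl _ _)
      · refine lt_of_le_of_lt (add_le_add le_rfl ?_) hc'
        simp only [Fm.rank]
        exact_mod_cast (Nat.le_succ _).trans (le_max_left _ _)
    · rw [subst_of_not_free _ _ _ hx]
      have := H P.d0 a (P.good_mono (by rw [P.supp_d0, Set.union_empty]; exact Sf_imp_left _ _ v) hg)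
        (P.eqv_refl _ _)
      refine (sat_congr φ a fun y hy => ?_).1 this
      exact update_of_ne (by rintro rfl; exact hx hy) _ _
  | dist x φ ψ hx =>
    intro H1 H2
    have hc1 : (P.Sf (.imp (.all x (.imp φ ψ)) (.imp φ (.all x ψ))) v).encard + 1 < P.m := by
      refine lt_of_le_of_lt (add_le_add le_rfl ?_) hc'
      simp only [Fm.rank]
      exact_mod_cast (Nat.le_add_left _ _).trans (le_max_left _ _)
    rw [key hg ((Sf_imp_right _ _ v).trans (Sf_imp_right _ _ v)) hc1]
    rw [key hg (Sf_imp_left _ _ v) hc1] at H1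
    intro d a' h1 h2
    refine H1 d a' h1 h2 ?_
    have h3 := (sat_loc' ((Sf_imp_left _ _ v).trans (Sf_imp_right _ _ v)) h2).1 H2
    refine (sat_congr φ a' fun y hy => ?_).1 h3
    exact (update_of_ne (by rintro rfl; exact hx hy) _ _).symm
  | refl t => rfl
  | leib x s t φ hφ =>
    intro H
    rw [sat_eq] at H
    cases φ with
    | bot => exact hφ.elim
    | eq s' t' => simp only [Fm.subst, sat_imp, sat_eq, ev_subst, H]; exact id
    | rel k n ts => simp only [Fm.subst, sat_imp, sat_rel, ev_subst, H]; exact id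
    | imp _ _ => exact hφ.elim
    | all _ _ => exact hφ.elim

/-- Soundness for proofs all of whose lines are shorter than the width bound. -/
theorem sound {A p : List Fm} (hp : IsProof A p) (hlen : ∀ φ ∈ p, (φ.str.length : ℕ∞) < P.m)
    (hA : ∀ φ ∈ A, (φ.str.length : ℕ∞) < P.m → P.Valid φ) : ∀ φ ∈ p, P.Valid φ := by
  induction hp with
  | nil => intro φ h; cases h
  | logic p a _ ha ih =>
    intro φ h
    rcases List.mem_cons.1 h with rfl | h
    · exact valid_logAx ha (hlen _ List.mem_cons_self)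
    · exact ih (fun ψ h => hlen ψ (List.mem_cons_of_mem _ h)) φ h
  | ax p a _ ha ih =>
    intro φ h
    rcases List.mem_cons.1 h with rfl | h
    · exact hA _ ha (hlen _ List.mem_cons_self)
    · exact ih (fun ψ h => hlen ψ (List.mem_cons_of_mem _ h)) φ h
  | mp p a b _ ha hab ih =>
    intro φ h
    have ih' := ih (fun ψ h => hlen ψ (List.mem_cons_of_mem _ h))
    rcases List.mem_cons.1 h with rfl | h
    · exact valid_mp (ih' _ ha) (ih' _ hab) (hlen _ (List.mem_cons_of_mem _ hab))
    · exact ih' φ h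
  | gen p x a _ ha ih =>
    intro φ h
    have ih' := ih (fun ψ h => hlen ψ (List.mem_cons_of_mem _ h))
    rcases List.mem_cons.1 h with rfl | h
    · exact valid_all x (ih' _ ha)
    · exact ih' φ h

theorem not_valid_bot : ¬ P.Valid .bot := fun h =>
  h (fun _ => P.d0) P.a0 (by rw [Sf_closed (φ := .bot) (fun _ h => h)]; exact P.good_a0)

theorem line_le_len {p : List Fm} {φ : Fm} (h : φ ∈ p) : φ.str.length ≤ len p :=
  List.single_le_sum (fun _ _ => Nat.zero_le _) _ (List.mem_map_of_mem (f := fun a : Fm => a.str.length) h)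

/-- No refutation shorter than the width bound. -/
theorem no_short_refutation {A p : List Fm} (hp : IsProof A p) (hlen : (len p : ℕ∞) < P.m)
    (hA : ∀ φ ∈ A, (φ.str.length : ℕ∞) < P.m → P.Valid φ) : Fm.bot ∉ p := fun h =>
  not_valid_bot (sound hp (fun _ hφ => lt_of_le_of_lt (by exact_mod_cast line_le_len hφ) hlen)
    hA _ h)

end PM

end Pool.Agent.MP_8ec908_lc.H47
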